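import Pool.Agent.X17.SM.Small
import Pool.Agent.H510R2.Div

/-! Choice of parameters for large `m`. -/

namespace Pool.Agent.X17.SM

open Finset Filter

theorem ev_const (C : ℝ) {a : ℝ} (ha : 0 < a) : ∀ᶠ m : ℕ in atTop, C ≤ (m:ℝ)^a :=
  ((tendsto_rpow_atTop ha).comp tendsto_natCast_atTop_atTop).eventually_ge_atTop C

theorem ev_log (C : ℝ) {a : ℝ} (ha : 0 < a) (k : ℕ) :
    ∀ᶠ m : ℕ in atTop, C * (Real.log m)^k ≤ (m:ℝ)^a := by
  have h1 := isLittleO_log_rpow_rpow_atTop (k:ℝ) ha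
  have h2 := h1.bound (show (0:ℝ) < 1/(|C|+1) by positivity)
  have h3 := tendsto_natCast_atTop_atTop.eventually h2
  filter_upwards [h3, eventually_ge_atTop 1] with m hm hm1
  have hm1' : (1:ℝ) ≤ m := by exact_mod_cast hm1
  have hl : 0 ≤ Real.log m := Real.log_nonneg hm1'
  rw [Real.rpow_natCast, Real.norm_of_nonneg (by positivity), Real.norm_of_nonneg (by positivity)]
    at hm
  have h4 : (Real.log m)^k * (|C|+1) ≤ (m:ℝ)^a := by
    have := mul_le_mul_of_nonneg_right hm (by positivity : (0:ℝ) ≤ |C|+1)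
    have e : 1/(|C|+1) * (m:ℝ)^a * (|C|+1) = (m:ℝ)^a := by field_simp
    rwa [e] at this
  have h5 : C ≤ |C| + 1 := by linarith [le_abs_self C]
  nlinarith [pow_nonneg hl k]

theorem log_le {N : ℕ} (hN : 1 ≤ N) : (Nat.log 2 N : ℝ) ≤ 2 * Real.log N := by
  have h1 : (Nat.log 2 N : ℝ) ≤ Real.logb 2 N := Real.natLog_le_logb N 2
  have h2 : Real.logb 2 N = Real.log N / Real.log 2 := rfl
  have h3 : (0.69:ℝ) < Real.log 2 := by linarith [Real.log_two_gt_d9]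
  have h4 : 0 ≤ Real.log N := Real.log_nonneg (by exact_mod_cast hN)
  rw [h2] at h1
  refine h1.trans ?_
  rw [div_le_iff₀ (by linarith)]
  nlinarith

/-- The facts used for large `m`, with `u = m^(1/2000)`. -/
structure Good (m : ℕ) (u : ℝ) : Prop where
  hm : 3 ≤ m
  hu : (10:ℝ)^5 ≤ u
  hmu : (m:ℝ) = u^2000
  hLc : 7 * (Lc m : ℝ) ≤ u
  hy : (((Nat.log 2 (5*m^2) + 1)^3 : ℕ):ℝ) ≤ u
  hexp : Real.exp (16 * (((Nat.log 2 (5*m^2) + 1)^3 : ℕ):ℝ)^(1/4:ℝ)) ≤ u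
  hτ : ∀ q : ℕ, (q:ℝ) ≤ u^8000 → (q.divisors.card : ℝ) ≤ u
  hPA : ∀ X : ℕ, (X:ℝ) ≤ u^4000 → ((PA X).ncard : ℝ) ≤ u * X

theorem good_ev : ∀ᶠ m : ℕ in atTop, Good m ((m:ℝ)^(1/2000:ℝ)) := by
  obtain ⟨C1, hC1, hd⟩ := Pool.Agent.H510R2.divisor_bound (1/16000) (by norm_num)
  obtain ⟨C2, hC2, hp⟩ := PA_bound (1/16000) (by norm_num)
  have hx : ∀ᶠ x : ℝ in atTop, 16 * (10*x)^(3/4:ℝ) ≤ x/2000 := by
    have h1 := (tendsto_rpow_atTop (by norm_num : (0:ℝ) < 1/4)).eventually_ge_atTop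
      (32000 * (10:ℝ)^(3/4:ℝ))
    filter_upwards [h1, eventually_gt_atTop 0] with x hx hx0
    rw [Real.mul_rpow (by norm_num) hx0.le]
    have e : x = x^(3/4:ℝ) * x^(1/4:ℝ) := by
      rw [← Real.rpow_add hx0]; norm_num
    have h2 : 0 ≤ x^(3/4:ℝ) := by positivity
    calc 16 * ((10:ℝ)^(3/4:ℝ) * x^(3/4:ℝ)) = x^(3/4:ℝ) * (32000 * (10:ℝ)^(3/4:ℝ)) / 2000 := by ring
      _ ≤ x^(3/4:ℝ) * x^(1/4:ℝ) / 2000 := by gcongr
      _ = x/2000 := by rw [← e]
  have hx' := (Real.tendsto_log_atTop.comp tendsto_natCast_atTop_atTop).eventually hx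
  filter_upwards [ev_const ((10:ℝ)^5) (by norm_num : (0:ℝ) < 1/2000),
    ev_log 1000 (by norm_num : (0:ℝ) < 1/2000) 1, ev_log 1000 (by norm_num : (0:ℝ) < 1/2000) 3,
    ev_const C1 (by norm_num : (0:ℝ) < 1/4000), ev_const C2 (by norm_num : (0:ℝ) < 1/4000),
    hx', eventually_ge_atTop 20] with m h1 h2 h3 h4 h5 h6 h7
  have hm20 : (20:ℝ) ≤ m := by exact_mod_cast h7
  have hm0 : (0:ℝ) < m := by linarith
  have hlog1 : 1 ≤ Real.log m := by
    rw [Real.le_log_iff_exp_le hm0]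
    linarith [Real.exp_one_lt_d9]
  set u : ℝ := (m:ℝ)^(1/2000:ℝ) with hu
  have hu0 : 0 < u := by positivity
  have hmu : (m:ℝ) = u^2000 := by
    rw [hu, ← Real.rpow_natCast, ← Real.rpow_mul hm0.le]; norm_num
  have hl5 : (Nat.log 2 (5*m^2) : ℝ) + 1 ≤ 10 * Real.log m := by
    have e1 := log_le (N := 5*m^2) (by nlinarith)
    have e2 : Real.log ((5*m^2 : ℕ):ℝ) = Real.log 5 + 2 * Real.log m := by
      push_cast
      rw [Real.log_mul (by norm_num) (by positivity), Real.log_pow]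
      push_cast; ring
    have e3 : Real.log 5 ≤ Real.log m := Real.log_le_log (by norm_num) (by linarith)
    rw [e2] at e1
    linarith
  refine ⟨by omega, h1, hmu, ?_, ?_, ?_, ?_, ?_⟩
  · have e1 := log_le (N := 2*m) (by omega)
    have e2 : Real.log ((2*m : ℕ):ℝ) = Real.log 2 + Real.log m := by
      push_cast
      rw [Real.log_mul (by norm_num) (by positivity)]
    have e3 : Real.log 2 ≤ Real.log m := Real.log_le_log (by norm_num) (by linarith)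
    rw [e2] at e1
    unfold Lc
    push_cast
    rw [pow_one] at h2
    linarith
  · push_cast
    calc ((Nat.log 2 (5*m^2) : ℝ) + 1)^3 ≤ (10 * Real.log m)^3 := by gcongr
      _ = 1000 * (Real.log m)^3 := by ring
      _ ≤ u := h3
  · have e1 : (((Nat.log 2 (5*m^2) + 1)^3 : ℕ):ℝ)^(1/4:ℝ) ≤ (10 * Real.log m)^(3/4:ℝ) := by
      push_cast
      calc (((Nat.log 2 (5*m^2) : ℝ) + 1)^3)^(1/4:ℝ) ≤ ((10 * Real.log m)^3)^(1/4:ℝ) := by gcongr
        _ = (10 * Real.log m)^(3/4:ℝ) := by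
          rw [← Real.rpow_natCast, ← Real.rpow_mul (by positivity)]; norm_num
    have e2 : 16 * (10 * Real.log m)^(3/4:ℝ) ≤ Real.log m / 2000 := h6
    calc Real.exp (16 * (((Nat.log 2 (5*m^2) + 1)^3 : ℕ):ℝ)^(1/4:ℝ))
        ≤ Real.exp (Real.log m / 2000) := Real.exp_le_exp.mpr (by linarith)
      _ = u := by
        rw [hu, Real.rpow_def_of_pos hm0]; ring_nf
  · intro q hq
    rcases Nat.eq_zero_or_pos q with h0 | h0
    · subst h0; simp; positivity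
    · have e1 := hd q h0
      have e2 : (q:ℝ)^(1/16000:ℝ) ≤ (m:ℝ)^(1/4000:ℝ) := by
        calc (q:ℝ)^(1/16000:ℝ) ≤ (u^8000)^(1/16000:ℝ) := by gcongr
          _ = (m:ℝ)^(1/4000:ℝ) := by
            rw [hu, ← Real.rpow_natCast, ← Real.rpow_mul hm0.le, ← Real.rpow_mul hm0.le]
            norm_num
      calc (q.divisors.card : ℝ) ≤ C1 * (q:ℝ)^(1/16000:ℝ) := e1
        _ ≤ (m:ℝ)^(1/4000:ℝ) * (m:ℝ)^(1/4000:ℝ) := by gcongr
        _ = u := by rw [← Real.rpow_add hm0, hu]; norm_num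
  · intro X hX
    rcases Nat.eq_zero_or_pos X with h0 | h0
    · subst h0
      have := hp 0
      rw [Nat.cast_zero, Real.zero_rpow (by norm_num)] at this
      simpa using this
    · have hX0 : (0:ℝ) < X := by exact_mod_cast h0
      have e2 : (X:ℝ)^(1/16000:ℝ) ≤ (m:ℝ)^(1/4000:ℝ) := by
        calc (X:ℝ)^(1/16000:ℝ) ≤ (u^4000)^(1/16000:ℝ) := by gcongr
          _ = (m:ℝ)^(1/8000:ℝ) := by
            rw [hu, ← Real.rpow_natCast, ← Real.rpow_mul hm0.le, ← Real.rpow_mul hm0.le]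
            norm_num
          _ ≤ (m:ℝ)^(1/4000:ℝ) :=
            Real.rpow_le_rpow_of_exponent_le (by linarith) (by norm_num)
      calc ((PA X).ncard : ℝ) ≤ C2 * (X:ℝ)^(1+1/16000:ℝ) := hp X
        _ = C2 * ((X:ℝ)^(1/16000:ℝ) * X) := by
            rw [Real.rpow_add hX0, Real.rpow_one]; ring
        _ ≤ (m:ℝ)^(1/4000:ℝ) * ((m:ℝ)^(1/4000:ℝ) * X) := by gcongr
        _ = u * X := by
            rw [← mul_assoc, ← Real.rpow_add hm0, hu]; norm_num

end Pool.Agent.X17.SM
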