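import Pool.Agent.X17.SM.Low
import Pool.Agent.X17.SM.Asy

/-! Many solutions for special `n`, asymptotic form. -/

namespace Pool.Agent.X17.SM

open Finset Filter

/-- the primes -/
noncomputable def pr (q : ℕ) (i : Fin 200) (j : Fin q) : ℕ := Nat.nth Nat.Prime ((i:ℕ)*q + j)

theorem pr_prime (q : ℕ) (i : Fin 200) (j : Fin q) : (pr q i j).Prime :=
  Nat.nth_mem_of_infinite Nat.infinite_setOfPred_prime _

theorem pr_inj (q : ℕ) (i : Fin 200) (j : Fin q) (i' : Fin 200) (j' : Fin q)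
    (h : pr q i j = pr q i' j') : i = i' ∧ j = j' := by
  unfold pr at h
  have h1 := Nat.nth_injective Nat.infinite_setOfPred_prime h
  have hj := j.isLt
  have hj' := j'.isLt
  have hq : 0 < q := by omega
  have h2 : (i:ℕ) = i' := by
    have e1 : ((i:ℕ)*q + j)/q = i := by
      rw [mul_comm, Nat.mul_add_div hq, Nat.div_eq_of_lt hj, add_zero]
    have e2 : ((i':ℕ)*q + j')/q = i' := by
      rw [mul_comm, Nat.mul_add_div hq, Nat.div_eq_of_lt hj', add_zero]
    rw [← e1, ← e2, h1]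
  refine ⟨Fin.ext h2, Fin.ext ?_⟩
  rw [h2] at h1
  omega

theorem pr_le {q x : ℕ} (hx : 200*q ≤ Nat.primeCounting x) (i : Fin 200) (j : Fin q) :
    pr q i j ≤ x := by
  unfold pr
  have hi := i.isLt
  have hj := j.isLt
  have h1 : (i:ℕ)*q + j < Nat.primeCounting x := by
    have : (i:ℕ)*q ≤ 199*q := Nat.mul_le_mul_right _ (by omega)
    omega
  have h2 : Nat.nth Nat.Prime ((i:ℕ)*q + j) < x + 1 := Nat.nth_lt_of_lt_count h1
  omega

theorem PP_le {q x : ℕ} (hx : ∀ i j, pr q i j ≤ x) : PP (R := 199) (pr q) ≤ x^(200*q) := by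
  unfold PP
  calc (∏ j, pr q 0 j) * ∏ i : Fin 199, ∏ j, pr q i.succ j
      ≤ (∏ _j : Fin q, x) * ∏ _i : Fin 199, ∏ _j : Fin q, x := by
        apply Nat.mul_le_mul
        · exact Finset.prod_le_prod' (fun j _ => hx _ _)
        · exact Finset.prod_le_prod' (fun i _ => Finset.prod_le_prod' (fun j _ => hx _ _))
    _ = x^(200*q) := by
        simp only [Finset.prod_const, Finset.card_univ, Fintype.card_fin]
        rw [← pow_mul, ← pow_add]; congr 1; ring

theorem PP_ge {q : ℕ} : 2^(200*q) ≤ PP (R := 199) (pr q) := by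
  unfold PP
  calc 2^(200*q) = (∏ _j : Fin q, 2) * ∏ _i : Fin 199, ∏ _j : Fin q, 2 := by
        simp only [Finset.prod_const, Finset.card_univ, Fintype.card_fin]
        rw [← pow_mul, ← pow_add]; congr 1; ring
    _ ≤ _ := by
        apply Nat.mul_le_mul
        · exact Finset.prod_le_prod' (fun j _ => (pr_prime _ _ _).two_le)
        · exact Finset.prod_le_prod' (fun i _ => Finset.prod_le_prod'
            (fun j _ => (pr_prime _ _ _).two_le))

theorem many_primes : ∀ᶠ q : ℕ in atTop,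
    200*q ≤ Nat.primeCounting ⌊(q:ℝ)^(401/400:ℝ)⌋₊ := by
  filter_upwards [ev_log 10000 (by norm_num : (0:ℝ) < 1/400) 1, eventually_ge_atTop 20]
    with q h1 hq
  rw [pow_one] at h1
  have hq20 : (20:ℝ) ≤ q := by exact_mod_cast hq
  have hq0 : (0:ℝ) < q := by linarith
  have hlog1 : 1 ≤ Real.log q := by
    rw [Real.le_log_iff_exp_le hq0]
    linarith [Real.exp_one_lt_d9]
  set x := ⌊(q:ℝ)^(401/400:ℝ)⌋₊ with hx
  have e0 : (q:ℝ)^(401/400:ℝ) = q * (q:ℝ)^(1/400:ℝ) := by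
    rw [← Real.rpow_one_add' hq0.le (by norm_num)]; norm_num
  have hxle : (x:ℝ) ≤ (q:ℝ)^(401/400:ℝ) := Nat.floor_le (by positivity)
  have hxge : (q:ℝ)^(401/400:ℝ) - 1 ≤ x := by
    have := Nat.lt_floor_add_one ((q:ℝ)^(401/400:ℝ))
    linarith
  have hxq2 : (x:ℝ) ≤ (q:ℝ)^2 := by
    refine hxle.trans ?_
    rw [← Real.rpow_natCast]
    exact Real.rpow_le_rpow_of_exponent_le (by linarith) (by norm_num)
  have hbig : 10000 * Real.log q * q ≤ (q:ℝ)^(401/400:ℝ) := by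
    rw [e0, mul_comm]
    gcongr
  have hx2 : (20:ℝ) ≤ x := by nlinarith
  have hx0 : (0:ℝ) < x := by linarith
  have hlx : Real.log x ≤ 2 * Real.log q := by
    have := Real.log_le_log hx0 hxq2
    rw [Real.log_pow] at this
    exact_mod_cast this
  have hlx0 : 0 < Real.log x := Real.log_pos (by linarith)
  have hlx1 : Real.log ((x:ℝ)+1) ≤ 3 * Real.log q := by
    have e1 : (x:ℝ) + 1 ≤ (q:ℝ)^3 := by nlinarith
    have := Real.log_le_log (by linarith) e1
    rw [Real.log_pow] at this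
    exact_mod_cast this
  have p1 := Chebyshev.psi_le_primeCounting_mul_log x
  have p2 := Chebyshev.psi_ge x
  have hl2 : (0.69:ℝ) < Real.log 2 := by linarith [Real.log_two_gt_d9]
  by_contra hcon
  push Not at hcon
  have hc : (Nat.primeCounting x : ℝ) ≤ 200 * q := by exact_mod_cast hcon.le
  have h3 : (x:ℝ) * Real.log 2 - Real.log ((x:ℝ)+1) ≤ 200 * q * (2 * Real.log q) := by
    calc (x:ℝ) * Real.log 2 - Real.log ((x:ℝ)+1) ≤ (Nat.primeCounting x : ℝ) * Real.log x :=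
          p2.trans p1
      _ ≤ 200 * q * (2 * Real.log q) := by gcongr
  have h4 : (x:ℝ) * 0.69 ≤ (x:ℝ) * Real.log 2 := by gcongr
  have h5 : 20 * Real.log q ≤ Real.log q * q := by nlinarith
  nlinarith

theorem log_fact (q : ℕ) (hq : 1 ≤ q) : q * Real.log q - q ≤ Real.log (q.factorial : ℝ) := by
  have h1 := Real.pow_div_factorial_le_exp (q:ℝ) (by positivity) q
  have hf : (0:ℝ) < (q.factorial : ℝ) := by exact_mod_cast q.factorial_pos
  have hq0 : (0:ℝ) < q := by exact_mod_cast hq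
  have h2 := Real.log_le_log (by positivity) h1
  rw [Real.log_exp, Real.log_div (by positivity) hf.ne', Real.log_pow] at h2
  linarith

theorem main_ineq : ∀ᶠ q : ℕ in atTop, ∀ x : ℕ, 1 ≤ x → (x:ℝ) ≤ (q:ℝ)^(401/400:ℝ) →
    ((q * x^200 + 1 : ℕ):ℝ) * (x:ℝ)^(198*q) ≤ ((q.factorial^199 : ℕ):ℝ) := by
  have hl := (Real.tendsto_log_atTop.comp tendsto_natCast_atTop_atTop).eventually_ge_atTop 1000
  filter_upwards [hl, eventually_ge_atTop 1000] with q h1 hq x hx1 hx
  have h1' : 1000 ≤ Real.log q := h1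
  have hq1 : (1000:ℝ) ≤ q := by exact_mod_cast hq
  have hq0 : (0:ℝ) < q := by linarith
  have hx0 : (0:ℝ) < x := by exact_mod_cast hx1
  have hf : (0:ℝ) < (q.factorial : ℝ) := by exact_mod_cast q.factorial_pos
  have hlx : Real.log x ≤ (401/400) * Real.log q := by
    have := Real.log_le_log hx0 hx
    rwa [Real.log_rpow hq0] at this
  have hfac := log_fact q (by omega)
  have e1 : ((q * x^200 + 1 : ℕ):ℝ) ≤ 2 * (q * (x:ℝ)^200) := by
    push_cast
    have : (1:ℝ) ≤ q * (x:ℝ)^200 := by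
      have a : (1:ℝ) ≤ (x:ℝ)^200 := one_le_pow₀ (by exact_mod_cast hx1)
      nlinarith
    linarith
  have e2 : (2 * (q * (x:ℝ)^200)) * (x:ℝ)^(198*q) ≤ (q.factorial:ℝ)^199 := by
    rw [← Real.log_le_log_iff (by positivity) (by positivity), Real.log_mul (by positivity)
      (by positivity), Real.log_mul (by norm_num) (by positivity), Real.log_mul (by positivity)
      (by positivity), Real.log_pow, Real.log_pow, Real.log_pow]
    push_cast
    have l2 : Real.log 2 ≤ 1 := by linarith [Real.log_two_lt_d9]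
    have a1 : 200 * Real.log x ≤ 200 * ((401/400) * Real.log q) := by linarith
    have a2 : 198 * (q:ℝ) * Real.log x ≤ 198 * (q:ℝ) * ((401/400) * Real.log q) := by gcongr
    have a3 : 199 * ((q:ℝ) * Real.log q - q) ≤ 199 * Real.log (q.factorial:ℝ) := by linarith
    have a4 : 1000 * (q:ℝ) ≤ q * Real.log q := by nlinarith
    have a5 : 1000 * Real.log q ≤ q * Real.log q := by nlinarith
    nlinarith
  calc ((q * x^200 + 1 : ℕ):ℝ) * (x:ℝ)^(198*q)
      ≤ (2 * (q * (x:ℝ)^200)) * (x:ℝ)^(198*q) := by gcongr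
    _ ≤ (q.factorial:ℝ)^199 := e2
    _ = _ := by push_cast; ring

theorem big_PP (N : ℕ) : ∀ᶠ q : ℕ in atTop, ∀ x : ℕ, (x:ℝ) ≤ (q:ℝ)^(401/400:ℝ) →
    q*x^200 + q + N + 4 ≤ 2^(200*q) := by
  have h0 := tendsto_pow_const_div_const_pow_of_one_lt 401 (one_lt_two (α := ℝ))
  have h1 := h0.eventually_le_const (show (0:ℝ) < 1 by norm_num)
  filter_upwards [h1, eventually_ge_atTop (N+4)] with q hq hN x hx
  have hq1 : (1:ℝ) ≤ q := by exact_mod_cast (by omega : 1 ≤ q)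
  have h2 : (q:ℝ)^401 ≤ 2^q := by
    rwa [div_le_one (by positivity)] at hq
  have hxq2 : (x:ℝ) ≤ (q:ℝ)^2 := by
    refine hx.trans ?_
    rw [← Real.rpow_natCast]
    exact Real.rpow_le_rpow_of_exponent_le hq1 (by norm_num)
  have h3 : ((q*x^200 : ℕ):ℝ) ≤ ((2^q : ℕ):ℝ) := by
    push_cast
    calc (q:ℝ) * (x:ℝ)^200 ≤ q * ((q:ℝ)^2)^200 := by gcongr
      _ = (q:ℝ)^401 := by ring
      _ ≤ 2^q := h2
  have h4 : q*x^200 ≤ 2^q := by exact_mod_cast h3
  have h5 : q < 2^q := Nat.lt_two_pow_self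
  have h6 : 4 * 2^q ≤ 2^(200*q) := by
    calc 4 * 2^q = 2^(q+2) := by rw [pow_add]; ring
      _ ≤ 2^(200*q) := Nat.pow_le_pow_right (by norm_num) (by omega)
  omega

theorem rp_aux {n x : ℝ} {q : ℕ} (hx : 0 ≤ x) (hn : 0 ≤ n) (h : n ≤ x^(200*q)) :
    n^(99/100:ℝ) ≤ x^(198*q) := by
  refine (Real.rpow_le_rpow hn h (by norm_num)).trans (le_of_eq ?_)
  rw [← Real.rpow_natCast x (200*q), ← Real.rpow_mul hx, ← Real.rpow_natCast x (198*q)]
  congr 1
  push_cast; ring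

theorem lower (N : ℕ) : ∃ n, N ≤ n ∧ (n:ℝ)^(99/100:ℝ) ≤ ((SolC n).ncard : ℝ) := by
  obtain ⟨q, ⟨⟨h1, h2⟩, h3⟩, h4⟩ := (((many_primes.and main_ineq).and (big_PP N)).and
    (eventually_ge_atTop 1)).exists
  set x := ⌊(q:ℝ)^(401/400:ℝ)⌋₊ with hx
  have hxle : (x:ℝ) ≤ (q:ℝ)^(401/400:ℝ) := Nat.floor_le (by positivity)
  have hx1 : 1 ≤ x := by
    rw [hx, Nat.one_le_floor_iff]
    exact Real.one_le_rpow (by exact_mod_cast h4) (by norm_num)
  have hpx : ∀ i j, pr q i j ≤ x := fun i j => pr_le h1 i j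
  obtain ⟨n, hn1, hn2, hn3⟩ := low_core (R := 199) (p := pr q) (x := x) (N := N)
    (fun i j => pr_prime q i j) (fun i j i' j' h => pr_inj q i j i' j' h) h4 hpx
    ((h3 x hxle).trans PP_ge)
  refine ⟨n, hn1, ?_⟩
  have h5 := h2 x hx1 hxle
  have h6 : ((q.factorial^199 : ℕ):ℝ) ≤ ((q * x^200 + 1 : ℕ):ℝ) * ((SolC n).ncard : ℝ) := by
    exact_mod_cast hn3
  have h7 : (x:ℝ)^(198*q) ≤ ((SolC n).ncard : ℝ) := by
    have hpos : (0:ℝ) < ((q * x^200 + 1 : ℕ):ℝ) := by exact_mod_cast Nat.succ_pos _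
    exact le_of_mul_le_mul_left (h5.trans h6) hpos
  have h8' : n ≤ x^(200*q) := hn2.trans (PP_le hpx)
  have h8 : (n:ℝ) ≤ (x:ℝ)^(200*q) := by
    have := (Nat.cast_le (α := ℝ)).mpr h8'
    rwa [Nat.cast_pow] at this
  exact le_trans (rp_aux (Nat.cast_nonneg x) (Nat.cast_nonneg n) h8) h7

end Pool.Agent.X17.SM
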