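import Pool.Agent.X17.SM.Low

/-! From sorted tuples to multisets of the entries `≥ 2`. -/

namespace Pool.Agent.X17.SM

open Finset

/-- The sorted positive solutions of `σ₂ = σ_n`. -/
def S (n : ℕ) : Set (Fin n → ℕ) := {x | (∀ i, 0 < x i) ∧ Monotone x ∧
  ∑ i, ∑ j ∈ Finset.Ioi i, x i * x j = ∏ i, x i}

def vals {n : ℕ} (x : Fin n → ℕ) : Multiset ℕ := (Finset.univ : Finset (Fin n)).val.map x

def Ph {n : ℕ} (x : Fin n → ℕ) : Multiset ℕ := (vals x).filter (fun y => 2 ≤ y)

theorem two_sigma {n : ℕ} (x : Fin n → ℕ) :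
    2 * (∑ i, ∑ j ∈ Finset.Ioi i, x i * x j) + ∑ i, (x i)^2 = (∑ i, x i)^2 := by
  have h1 : (∑ i, x i)^2 = ∑ i, ∑ j, x i * x j := by
    rw [sq, Finset.sum_mul_sum]
  have h2 : ∀ i : Fin n, ∑ j, x i * x j =
      ∑ j ∈ Finset.Iio i, x i * x j + (x i)^2 + ∑ j ∈ Finset.Ioi i, x i * x j := by
    intro i
    have e : (Finset.univ : Finset (Fin n)) = (Finset.Iio i ∪ {i}) ∪ Finset.Ioi i := by
      ext j
      simp only [Finset.mem_univ, Finset.mem_union, Finset.mem_Iio, Finset.mem_singleton,
        Finset.mem_Ioi, true_iff]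
      rcases lt_trichotomy j i with h | h | h
      · left; left; exact h
      · left; right; exact h
      · right; exact h
    rw [e, Finset.sum_union, Finset.sum_union, Finset.sum_singleton, sq]
    · rw [Finset.disjoint_singleton_right]; simp
    · rw [Finset.disjoint_left]
      intro j hj hj'
      rw [Finset.mem_union, Finset.mem_Iio, Finset.mem_singleton] at hj
      rw [Finset.mem_Ioi] at hj'
      rcases hj with h | h
      · exact lt_asymm h hj'
      · subst h; exact lt_irrefl _ hj'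
  have h3 : ∑ i : Fin n, ∑ j ∈ Finset.Iio i, x i * x j = ∑ i : Fin n, ∑ j ∈ Finset.Ioi i, x i * x j := by
    rw [Finset.sum_comm' (t' := Finset.univ) (s' := fun j => Finset.Ioi j)]
    · apply Finset.sum_congr rfl
      intro i _
      apply Finset.sum_congr rfl
      intro j _
      ring
    · intro a b
      simp
  rw [h1, Finset.sum_congr rfl (fun i _ => h2 i), Finset.sum_add_distrib, Finset.sum_add_distrib, h3]
  ring

theorem filter_facts {T : Multiset ℕ} (hT : ∀ y ∈ T, 0 < y) :
    (T.filter (fun y => 2 ≤ y)).prod = T.prod ∧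
    T.sum = Multiset.card T + Bs (T.filter (fun y => 2 ≤ y)) ∧
    (T.map (fun y => y^2)).sum = As (T.filter (fun y => 2 ≤ y)) + T.sum := by
  induction T using Multiset.induction_on with
  | empty => simp [Bs_zero, As_zero]
  | cons y T ih =>
    have h1 := hT y (Multiset.mem_cons_self _ _)
    obtain ⟨i1, i2, i3⟩ := ih (fun x hx => hT x (Multiset.mem_cons_of_mem hx))
    by_cases h2 : 2 ≤ y
    · rw [Multiset.filter_cons_of_pos _ h2, Multiset.prod_cons, Multiset.prod_cons, Bs_cons, As_cons,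
        Multiset.sum_cons, Multiset.card_cons, Multiset.map_cons, Multiset.sum_cons, i1, i3]
      refine ⟨rfl, ?_, ?_⟩
      · change y + T.sum = Multiset.card T + 1 + ((y - 1) + Bs (T.filter (fun y => 2 ≤ y)))
        omega
      obtain ⟨t, rfl⟩ : ∃ t, y = t+1 := ⟨y-1, by omega⟩
      simp only [Nat.add_sub_cancel]
      ring
    · have h3 : y = 1 := by omega
      subst h3
      rw [Multiset.filter_cons_of_neg _ h2, Multiset.prod_cons, Multiset.sum_cons,
        Multiset.card_cons, Multiset.map_cons, Multiset.sum_cons, i3, i1]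
      refine ⟨by simp, ?_, by ring⟩
      change 1 + T.sum = Multiset.card T + 1 + Bs (T.filter (fun y => 2 ≤ y))
      omega

theorem filter_rep {T : Multiset ℕ} (hT : ∀ y ∈ T, 0 < y) :
    T = T.filter (fun y => 2 ≤ y) +
      Multiset.replicate (Multiset.card T - Multiset.card (T.filter (fun y => 2 ≤ y))) 1 := by
  have h1 := Multiset.filter_add_not (fun y => 2 ≤ y) T
  have h2 : T.filter (fun y => ¬ 2 ≤ y) = Multiset.replicate
      (Multiset.card (T.filter (fun y => ¬ 2 ≤ y))) 1 := by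
    rw [Multiset.eq_replicate_card]
    intro y hy
    rw [Multiset.mem_filter] at hy
    have := hT y hy.1
    omega
  have h3 : Multiset.card (T.filter (fun y => ¬ 2 ≤ y)) =
      Multiset.card T - Multiset.card (T.filter (fun y => 2 ≤ y)) := by
    have := congrArg Multiset.card h1
    rw [Multiset.card_add] at this
    omega
  conv_lhs => rw [← h1]
  rw [h2, h3]

theorem vals_card {n : ℕ} (x : Fin n → ℕ) : Multiset.card (vals x) = n := by
  unfold vals; simp

theorem vals_pos {n : ℕ} {x : Fin n → ℕ} (h : ∀ i, 0 < x i) : ∀ y ∈ vals x, 0 < y := by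
  intro y hy
  unfold vals at hy
  rw [Multiset.mem_map] at hy
  obtain ⟨i, _, rfl⟩ := hy
  exact h i

theorem eq_iff {n : ℕ} {x : Fin n → ℕ} (h : ∀ i, 0 < x i) :
    ∑ i, ∑ j ∈ Finset.Ioi i, x i * x j = ∏ i, x i ↔
      2 * (Ph x).prod + As (Ph x) + (n + Bs (Ph x)) = (n + Bs (Ph x))^2 := by
  obtain ⟨h1, h2, h3⟩ := filter_facts (vals_pos h)
  rw [vals_card] at h2
  have e1 : (vals x).prod = ∏ i, x i := rfl
  have e2 : (vals x).sum = ∑ i, x i := rfl
  have e3 : ((vals x).map (fun y => y^2)).sum = ∑ i, (x i)^2 := by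
    unfold vals
    rw [Multiset.map_map]; rfl
  have h4 := two_sigma x
  rw [e2] at h2 h3
  rw [e3] at h3
  rw [e1] at h1
  unfold Ph
  rw [h1, ← h2]
  rw [h3] at h4
  constructor
  · intro h5
    rw [← h4, h5]
    ring
  · intro h5
    omega

theorem Ph_mem {n : ℕ} {x : Fin n → ℕ} (hx : x ∈ S n) : Ph x ∈ SolC n := by
  refine ⟨⟨?_, (eq_iff hx.1).mp hx.2.2⟩, ?_⟩
  · intro y hy
    exact (Multiset.mem_filter.mp hy).2
  · have := Multiset.card_le_card (Multiset.filter_le (fun y => 2 ≤ y) (vals x))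
    rw [vals_card] at this
    exact this

theorem vals_eq_ofFn {n : ℕ} (x : Fin n → ℕ) : vals x = (List.ofFn x : Multiset ℕ) := by
  unfold vals
  exact Fin.univ_val_map x

theorem Ph_inj {n : ℕ} : Set.InjOn Ph (S n) := by
  intro x hx y hy hxy
  have h1 := filter_rep (vals_pos hx.1)
  have h2 := filter_rep (vals_pos hy.1)
  rw [vals_card] at h1 h2
  have h3 : vals x = vals y := by
    rw [h1, h2]
    unfold Ph at hxy
    rw [hxy]
  rw [vals_eq_ofFn, vals_eq_ofFn, Multiset.coe_eq_coe] at h3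
  have h4 := h3.eq_of_sortedLE (List.sortedLE_ofFn_iff.mpr hx.2.1) (List.sortedLE_ofFn_iff.mpr hy.2.1)
  exact List.ofFn_injective h4

theorem Ph_surj {n : ℕ} {Y : Multiset ℕ} (hY : Y ∈ SolC n) : ∃ x ∈ S n, Ph x = Y := by
  obtain ⟨l, hl1, hl2, hl3⟩ : ∃ l : List ℕ, (l : Multiset ℕ) =
      Y + Multiset.replicate (n - Multiset.card Y) 1 ∧ l.SortedLE ∧ l.length = n := by
    refine ⟨(Y + Multiset.replicate (n - Multiset.card Y) 1).sort (· ≤ ·), Multiset.sort_eq _ _, ?_, ?_⟩
    · exact List.Pairwise.sortedLE (Multiset.pairwise_sort _ _)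
    · rw [Multiset.length_sort, Multiset.card_add, Multiset.card_replicate]
      have := hY.2
      omega
  subst hl3
  have hofn : List.ofFn l.get = l := List.ofFn_get l
  have hv : vals l.get = Y + Multiset.replicate (l.length - Multiset.card Y) 1 := by
    rw [vals_eq_ofFn, hofn, hl1]
  have hP : Ph l.get = Y := by
    unfold Ph
    rw [hv, Multiset.filter_add]
    have e1 : Y.filter (fun y => 2 ≤ y) = Y := Multiset.filter_eq_self.mpr hY.1.1
    have e2 : (Multiset.replicate (l.length - Multiset.card Y) 1).filter (fun y => 2 ≤ y) = 0 := by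
      rw [Multiset.filter_eq_nil]
      intro y hy
      rw [Multiset.eq_of_mem_replicate hy]
      norm_num
    rw [e1, e2, add_zero]
  have hpos : ∀ i, 0 < l.get i := by
    intro i
    have h1 : l.get i ∈ vals l.get := by
      unfold vals
      exact Multiset.mem_map_of_mem _ (Finset.mem_univ_val _)
    rw [hv, Multiset.mem_add] at h1
    rcases h1 with h | h
    · have := hY.1.1 _ h; omega
    · rw [Multiset.eq_of_mem_replicate h]; norm_num
  refine ⟨l.get, ⟨hpos, ?_, ?_⟩, hP⟩
  · rw [← List.sortedLE_ofFn_iff, hofn]; exact hl2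
  · rw [eq_iff hpos, hP]; exact hY.1.2

theorem Ph_image (n : ℕ) : Ph '' (S n) = SolC n := by
  ext Y
  constructor
  · rintro ⟨x, hx, rfl⟩; exact Ph_mem hx
  · intro hY
    obtain ⟨x, hx, h⟩ := Ph_surj hY
    exact ⟨x, hx, h⟩

theorem S_ncard (n : ℕ) : (S n).ncard = (SolC n).ncard := by
  rw [← Ph_image, Set.InjOn.ncard_image Ph_inj]

theorem S_finite {n : ℕ} (hn : 3 ≤ n) : (S n).Finite := by
  apply Set.Finite.of_finite_image _ Ph_inj
  rw [Ph_image]
  exact (Sol_finite hn).subset (fun Y hY => hY.1)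

end Pool.Agent.X17.SM
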