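import Pool.Agent.X17.SM.Eq

/-! Solutions with a large entry. -/

namespace Pool.Agent.X17.SM

open Finset

/-- bound for the sum of the other entries -/
def TT (m : ℕ) : ℕ := (2*Nat.log 2 (2*m) + 10)*(6*m+90)

def XX (m K : ℕ) : ℕ := TT m + (TT m)^2 / K

def BigN (n K : ℕ) : Set (Multiset ℕ) := {Y | Y ∈ Sol n ∧ ∃ z ∈ Y, K ≤ z}

open Classical in
noncomputable def FF (m K : ℕ) : Finset (ℕ × Multiset ℕ) :=
  (PA_finite (XX m K)).toFinset.biUnion (fun Y =>
    (Nat.divisors (Y.prod^2 - Y.prod - As Y)).image (fun D =>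
      ((Y.prod - D) + 1 - Bs Y, (((Y.prod - D)^2 - (Y.prod - D) - As Y)/(2*D)) ::ₘ Y)))

theorem mem_FF {m K n : ℕ} (hm : 3 ≤ m) (hK : 0 < K) (hn : m ≤ n) (hn2 : n ≤ 2*m) {Y : Multiset ℕ}
    (hY : Y ∈ BigN n K) : (n, Y) ∈ FF m K := by
  classical
  obtain ⟨hS, z0, hz0, hKz0⟩ := hY
  obtain ⟨z, w, Y2, rfl, hY2, hmax, hT, -⟩ := struct (by omega) hS
  have hKz : K ≤ z := by
    rcases Multiset.mem_cons.mp hz0 with h | h
    · omega
    · exact hKz0.trans (hmax z0 h)
  have hb := basic (by omega) hS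
  have hlt := prod_gt (by omega) hS
  set Y' := w ::ₘ Y2 with hY'
  set s := n - 1 + Bs Y' with hs
  obtain ⟨D, hD⟩ : ∃ D, Y'.prod = s + D := ⟨Y'.prod - s, by omega⟩
  have hDpos : 0 < D := by omega
  have e1 : 2*z*D + As Y' + s = s^2 := by
    rw [hD] at hb; nlinarith
  have hsT : s ≤ TT m := by
    refine hT.trans ?_
    unfold TT
    apply Nat.mul_le_mul
    · have := Nat.log_mono_right (b := 2) hn2
      omega
    · omega
  have hDle : D ≤ (TT m)^2 / K := by
    rw [Nat.le_div_iff_mul_le hK]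
    calc D * K ≤ D * z := Nat.mul_le_mul_left _ hKz
      _ ≤ s^2 := by nlinarith
      _ ≤ _ := Nat.pow_le_pow_left hsT 2
  unfold FF
  rw [Finset.mem_biUnion]
  refine ⟨Y', ?_, ?_⟩
  · rw [Set.Finite.mem_toFinset]
    refine ⟨fun y hy => hS.1 y (Multiset.mem_cons_of_mem hy), ?_⟩
    rw [hD]; unfold XX; omega
  · rw [Finset.mem_image]
    refine ⟨D, ?_, ?_⟩
    · have hz2 := hS.1 z (Multiset.mem_cons_self _ _)
      have e2 : Y'.prod^2 = Y'.prod + As Y' + D * (2*z+2*s+D-1) := by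
        obtain ⟨t, ht⟩ : ∃ t, D = t + 1 := ⟨D - 1, by omega⟩
        have e3 : 2*z+2*s+D-1 = 2*z+2*s+t := by omega
        rw [e3, hD]
        nlinarith [e1]
      have e4 : Y'.prod^2 - Y'.prod - As Y' = D * (2*z+2*s+D-1) := by omega
      rw [e4, Nat.mem_divisors]
      refine ⟨dvd_mul_right _ _, ?_⟩
      have : 0 < 2*z+2*s+D-1 := by omega
      positivity
    · have e5 : Y'.prod - D = s := by omega
      rw [e5]
      have e6 : s + 1 - Bs Y' = n := by omega
      have e7 : s^2 - s - As Y' = z * (2*D) := by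
        have : 2*z*D = z*(2*D) := by ring
        omega
      rw [e6, e7, Nat.mul_div_cancel _ (by omega)]

theorem FF_card {m K τ : ℕ} (hτ : ∀ q : ℕ, q ≤ (XX m K)^2 → q.divisors.card ≤ τ) :
    (FF m K).card ≤ (PA (XX m K)).ncard * τ := by
  classical
  unfold FF
  refine Finset.card_biUnion_le.trans ?_
  rw [Set.ncard_eq_toFinset_card _ (PA_finite _), ← smul_eq_mul, ← Finset.sum_const]
  apply Finset.sum_le_sum
  intro Y hY
  rw [Set.Finite.mem_toFinset] at hY
  refine Finset.card_image_le.trans (hτ _ ?_)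
  have : Y.prod^2 ≤ (XX m K)^2 := Nat.pow_le_pow_left hY.2 2
  omega

theorem big_total {m K τ : ℕ} (hm : 3 ≤ m) (hK : 0 < K)
    (hτ : ∀ q : ℕ, q ≤ (XX m K)^2 → q.divisors.card ≤ τ) :
    (∀ n ∈ Finset.Icc m (2*m), (BigN n K).Finite) ∧
    ∑ n ∈ Finset.Icc m (2*m), (BigN n K).ncard ≤ (PA (XX m K)).ncard * τ := by
  classical
  have hfin : ∀ n ∈ Finset.Icc m (2*m), (BigN n K).Finite ∧
      (BigN n K).ncard ≤ ((FF m K).filter (fun q => q.1 = n)).card := by
    intro n hn
    rw [Finset.mem_Icc] at hn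
    have hsub : BigN n K ⊆ ↑(((FF m K).filter (fun q => q.1 = n)).image Prod.snd) := by
      intro Y hY
      rw [Finset.mem_coe, Finset.mem_image]
      exact ⟨(n, Y), Finset.mem_filter.mpr ⟨mem_FF hm hK hn.1 hn.2 hY, rfl⟩, rfl⟩
    refine ⟨(Finset.finite_toSet _).subset hsub, ?_⟩
    calc (BigN n K).ncard ≤ (↑(((FF m K).filter (fun q => q.1 = n)).image Prod.snd) :
          Set (Multiset ℕ)).ncard := Set.ncard_le_ncard hsub (Finset.finite_toSet _)
      _ = _ := Set.ncard_coe_finset _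
      _ ≤ _ := Finset.card_image_le
  refine ⟨fun n hn => (hfin n hn).1, ?_⟩
  calc ∑ n ∈ Finset.Icc m (2*m), (BigN n K).ncard
      ≤ ∑ n ∈ Finset.Icc m (2*m), ((FF m K).filter (fun q => q.1 = n)).card :=
        Finset.sum_le_sum (fun n hn => (hfin n hn).2)
    _ ≤ (FF m K).card := by
        rw [← Finset.card_biUnion]
        · apply Finset.card_le_card
          intro q hq
          rw [Finset.mem_biUnion] at hq
          obtain ⟨n, _, hn⟩ := hq
          exact (Finset.mem_filter.mp hn).1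
        · intro a _ b _ hab
          rw [Function.onFun, Finset.disjoint_left]
          intro q hq hq'
          apply hab
          rw [← (Finset.mem_filter.mp hq).2, ← (Finset.mem_filter.mp hq').2]
    _ ≤ _ := FF_card hτ

/-- Each solution set is finite. -/
theorem Sol_finite {n : ℕ} (hn : 3 ≤ n) : (Sol n).Finite := by
  classical
  have hsub : Sol n ⊆ ↑((FF n 1).image Prod.snd) := by
    intro Y hY
    rw [Finset.mem_coe, Finset.mem_image]
    refine ⟨(n, Y), mem_FF hn one_pos le_rfl (by omega) ⟨hY, ?_⟩, rfl⟩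
    obtain ⟨z, w, Y2, rfl, -⟩ := struct hn hY
    exact ⟨z, Multiset.mem_cons_self _ _,
      by have := hY.1 z (Multiset.mem_cons_self _ _); omega⟩
  exact (Finset.finite_toSet _).subset hsub

end Pool.Agent.X17.SM
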