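import Mathlib

/-! Counting multisets of integers `≥ 2` with bounded product (Rankin's trick). -/

namespace Pool.Agent.X17.SM

open Finset

/-- Multisets of integers in `[2, K]` with product at most `X`. -/
def PM (K X : ℕ) : Set (Multiset ℕ) := {Y | (∀ y ∈ Y, 2 ≤ y ∧ y ≤ K) ∧ Y.prod ≤ X}

theorem prod_pos_of {Y : Multiset ℕ} (h : ∀ y ∈ Y, 2 ≤ y) : 0 < Y.prod := by
  apply Nat.pos_of_ne_zero
  intro h0
  rw [Multiset.prod_eq_zero_iff] at h0
  have := h 0 h0
  omega

/-- Rankin constant. -/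
noncomputable def cK (σ : ℝ) (K : ℕ) : ℝ := ∏ k ∈ Finset.Icc 2 K, (1 - (k:ℝ)^(-σ))⁻¹

theorem rp_lt {σ : ℝ} (hσ : 0 < σ) {k : ℕ} (hk : 2 ≤ k) : (k:ℝ)^(-σ) < 1 := by
  have : (1:ℝ) < k := by exact_mod_cast (by omega : 1 < k)
  exact Real.rpow_lt_one_of_one_lt_of_neg this (by linarith)

theorem cK_ge_one {σ : ℝ} (hσ : 0 < σ) (K : ℕ) : 1 ≤ cK σ K := by
  unfold cK
  induction K with
  | zero => simp
  | succ K ih =>
    by_cases h2 : 2 ≤ K + 1
    · rw [Finset.prod_Icc_succ_top h2]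
      have h1 := rp_lt hσ h2
      have h0 : 0 ≤ ((K+1:ℕ):ℝ)^(-σ) := by positivity
      have h3 : 1 ≤ (1 - ((K+1:ℕ):ℝ)^(-σ))⁻¹ := by
        apply one_le_inv_iff₀.mpr
        constructor <;> linarith
      nlinarith
    · rw [Finset.Icc_eq_empty (by omega)]; simp

theorem PM_le_one {σ : ℝ} (hσ : 0 < σ) (K X : ℕ) (hK : K ≤ 1) :
    (PM K X).Finite ∧ ((PM K X).ncard : ℝ) ≤ (X:ℝ)^σ := by
  have hsub : PM K X ⊆ {0} := by
    intro Y hY
    rw [Set.mem_singleton_iff]
    apply Multiset.eq_zero_of_forall_notMem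
    intro y hy
    have := hY.1 y hy
    omega
  refine ⟨(Set.finite_singleton _).subset hsub, ?_⟩
  rcases Nat.eq_zero_or_pos X with h0 | h0
  · have : PM K X = ∅ := by
      rw [Set.eq_empty_iff_forall_notMem]
      intro Y hY
      have h1 := hsub hY
      rw [Set.mem_singleton_iff] at h1
      have h2 := hY.2
      rw [h1, h0] at h2
      simp at h2
    rw [this]
    simp only [Set.ncard_empty, Nat.cast_zero]
    positivity
  · have h1 : (PM K X).ncard ≤ 1 := by
      calc _ ≤ ({0} : Set (Multiset ℕ)).ncard := Set.ncard_le_ncard hsub (Set.finite_singleton _)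
        _ = 1 := Set.ncard_singleton _
    have h2 : (1:ℝ) ≤ (X:ℝ)^σ := Real.one_le_rpow (by exact_mod_cast h0) hσ.le
    calc ((PM K X).ncard : ℝ) ≤ 1 := by exact_mod_cast h1
      _ ≤ _ := h2

theorem PM_zero (K : ℕ) : PM K 0 = ∅ := by
  rw [Set.eq_empty_iff_forall_notMem]
  intro Y hY
  have h1 := prod_pos_of (fun y hy => (hY.1 y hy).1)
  have := hY.2
  omega

theorem PM_sub (K X : ℕ) :
    PM (K+1) X ⊆ PM K X ∪ (fun Y => (K+1) ::ₘ Y) '' PM (K+1) (X/(K+1)) := by
  intro Y hY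
  by_cases h : K + 1 ∈ Y
  · right
    refine ⟨Y.erase (K+1), ⟨fun y hy => hY.1 y (Multiset.mem_of_mem_erase hy), ?_⟩, ?_⟩
    · rw [Nat.le_div_iff_mul_le (by omega)]
      calc (Y.erase (K+1)).prod * (K+1) = Y.prod := by
            rw [mul_comm]; exact Multiset.prod_erase h
        _ ≤ X := hY.2
    · exact Multiset.cons_erase h
  · left
    refine ⟨fun y hy => ?_, hY.2⟩
    have h1 := hY.1 y hy
    refine ⟨h1.1, ?_⟩
    rcases Nat.lt_or_ge K y with h2 | h2
    · exfalso; apply h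
      have : y = K + 1 := by omega
      rwa [← this]
    · exact h2

theorem PM_bound {σ : ℝ} (hσ : 0 < σ) (K : ℕ) : ∀ X : ℕ,
    (PM K X).Finite ∧ ((PM K X).ncard : ℝ) ≤ (X:ℝ)^σ * cK σ K := by
  induction K with
  | zero =>
    intro X
    have := PM_le_one hσ 0 X (by omega)
    refine ⟨this.1, ?_⟩
    have h1 : cK σ 0 = 1 := by unfold cK; simp
    rw [h1, mul_one]; exact this.2
  | succ K ih =>
    by_cases h2 : 2 ≤ K + 1
    · intro X
      induction X using Nat.strong_induction_on with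
      | _ X ihX =>
        rcases Nat.eq_zero_or_pos X with h0 | h0
        · subst h0
          rw [PM_zero]
          refine ⟨Set.finite_empty, ?_⟩
          simp only [Set.ncard_empty, Nat.cast_zero]
          have := cK_ge_one hσ (K+1)
          positivity
        · have hlt : X / (K+1) < X := Nat.div_lt_self h0 (by omega)
          obtain ⟨hf1, hb1⟩ := ih X
          obtain ⟨hf2, hb2⟩ := ihX _ hlt
          have hf3 : (PM K X ∪ (fun Y => (K+1) ::ₘ Y) '' PM (K+1) (X/(K+1))).Finite :=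
            hf1.union (hf2.image _)
          refine ⟨hf3.subset (PM_sub K X), ?_⟩
          have h3 : (PM (K+1) X).ncard ≤ (PM K X).ncard + (PM (K+1) (X/(K+1))).ncard := by
            calc (PM (K+1) X).ncard ≤ _ := Set.ncard_le_ncard (PM_sub K X) hf3
              _ ≤ _ := Set.ncard_union_le _ _
              _ ≤ _ := Nat.add_le_add_left (Set.ncard_image_le hf2) _
          set x : ℝ := ((K+1:ℕ):ℝ)^(-σ) with hx
          have hx1 : x < 1 := rp_lt hσ h2
          have hx0 : 0 ≤ x := by positivity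
          have hc : cK σ (K+1) = cK σ K * (1 - x)⁻¹ := by
            unfold cK; rw [Finset.prod_Icc_succ_top h2]
          have hdiv : ((X/(K+1) : ℕ):ℝ)^σ ≤ (X:ℝ)^σ * x := by
            calc ((X/(K+1) : ℕ):ℝ)^σ ≤ ((X:ℝ)/((K+1:ℕ):ℝ))^σ :=
                  Real.rpow_le_rpow (by positivity) Nat.cast_div_le hσ.le
              _ = (X:ℝ)^σ * x := by
                  rw [Real.div_rpow (by positivity) (by positivity), hx,
                    Real.rpow_neg (by positivity)]; rfl
          have hcc : cK σ K + x * cK σ (K+1) = cK σ (K+1) := by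
            rw [hc]
            have : 1 - x ≠ 0 := by linarith
            field_simp
            ring
          have hc1 : 0 ≤ cK σ (K+1) := by linarith [cK_ge_one hσ (K+1)]
          calc ((PM (K+1) X).ncard : ℝ)
              ≤ ((PM K X).ncard : ℝ) + ((PM (K+1) (X/(K+1))).ncard : ℝ) := by exact_mod_cast h3
            _ ≤ (X:ℝ)^σ * cK σ K + ((X/(K+1) : ℕ):ℝ)^σ * cK σ (K+1) := add_le_add hb1 hb2
            _ ≤ (X:ℝ)^σ * cK σ K + ((X:ℝ)^σ * x) * cK σ (K+1) := by
                gcongr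
            _ = (X:ℝ)^σ * cK σ (K+1) := by
                rw [mul_assoc, ← mul_add, hcc]
    · intro X
      have hK : K = 0 := by omega
      subst hK
      have := PM_le_one hσ 1 X (by omega)
      refine ⟨this.1, this.2.trans ?_⟩
      have := cK_ge_one hσ (0+1)
      have h5 : 0 ≤ (X:ℝ)^σ := by positivity
      nlinarith

theorem inv_le_exp {x : ℝ} (h0 : 0 ≤ x) (h1 : x ≤ 3/4) : (1 - x)⁻¹ ≤ Real.exp (4*x) := by
  have h2 : (1-x)⁻¹ ≤ 1 + 4*x := by
    rw [inv_le_iff_one_le_mul₀ (by linarith)]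
    nlinarith
  linarith [Real.add_one_le_exp (4*x)]

theorem two_rp {σ : ℝ} (hσ : 1/2 ≤ σ) {k : ℕ} (hk : 2 ≤ k) : (k:ℝ)^(-σ) ≤ 3/4 := by
  have h2 : (2:ℝ) ≤ k := by exact_mod_cast hk
  calc (k:ℝ)^(-σ) ≤ (2:ℝ)^(-σ) := Real.rpow_le_rpow_of_nonpos (by norm_num) h2 (by linarith)
    _ ≤ (2:ℝ)^(-(1/2:ℝ)) := Real.rpow_le_rpow_of_exponent_le (by norm_num) (by linarith)
    _ = (Real.sqrt 2)⁻¹ := by rw [Real.rpow_neg (by norm_num), Real.sqrt_eq_rpow]
    _ ≤ 3/4 := by
      rw [inv_le_comm₀ (by positivity) (by norm_num)]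
      apply Real.le_sqrt_of_sq_le
      norm_num

theorem cK_le {σ : ℝ} (hσ : 1/2 ≤ σ) (K : ℕ) :
    cK σ K ≤ Real.exp (4 * ∑ k ∈ Finset.Icc 2 K, (k:ℝ)^(-σ)) := by
  unfold cK
  rw [Finset.mul_sum, Real.exp_sum]
  apply Finset.prod_le_prod
  · intro k hk
    rw [Finset.mem_Icc] at hk
    have := rp_lt (by linarith : 0 < σ) hk.1
    have : 0 < 1 - (k:ℝ)^(-σ) := by linarith
    positivity
  · intro k hk
    rw [Finset.mem_Icc] at hk
    exact inv_le_exp (by positivity) (two_rp hσ hk.1)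

theorem sum_quarter (y : ℕ) : ∑ k ∈ Finset.Icc 2 y, (k:ℝ)^(-(3/4:ℝ)) ≤ 4 * (y:ℝ)^(1/4:ℝ) := by
  induction y with
  | zero => simp
  | succ n ih =>
    by_cases h2 : 2 ≤ n + 1
    · rw [Finset.sum_Icc_succ_top h2]
      set x : ℝ := ((n+1:ℕ):ℝ)^(1/4:ℝ) with hx
      set z : ℝ := (n:ℝ)^(1/4:ℝ) with hz
      have hx4 : x^4 = (n:ℝ)+1 := by
        rw [hx, ← Real.rpow_natCast, ← Real.rpow_mul (by positivity)]; norm_num
      have hz4 : z^4 = (n:ℝ) := by
        rw [hz, ← Real.rpow_natCast, ← Real.rpow_mul (by positivity)]; norm_num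
      have hxpos : 0 < x := by positivity
      have hz0 : 0 ≤ z := by positivity
      have hzx : z ≤ x := Real.rpow_le_rpow (by positivity) (by push_cast; linarith) (by norm_num)
      have hinv : ((n+1:ℕ):ℝ)^(-(3/4:ℝ)) = (x^3)⁻¹ := by
        rw [Real.rpow_neg (by positivity), hx, ← Real.rpow_natCast, ← Real.rpow_mul (by positivity)]
        norm_num
      rw [hinv]
      have h5 : 1 ≤ 4*(x - z)*x^3 := by
        have e1 : (x - z)*(x^3 + x^2*z + x*z^2+z^3) = 1 := by
          have : (x - z)*(x^3 + x^2*z + x*z^2+z^3) = x^4 - z^4 := by ring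
          rw [this, hx4, hz4]; ring
        have e2 : x^3 + x^2*z + x*z^2+z^3 ≤ 4*x^3 := by
          have a1 : x^2*z ≤ x^3 := by
            calc x^2*z ≤ x^2*x := by gcongr
              _ = x^3 := by ring
          have a2 : x*z^2 ≤ x^3 := by
            calc x*z^2 ≤ x*x^2 := by gcongr
              _ = x^3 := by ring
          have a3 : z^3 ≤ x^3 := by gcongr
          linarith
        have e3 : 0 ≤ x - z := by linarith
        nlinarith [mul_le_mul_of_nonneg_left e2 e3]
      have h6 : (x^3)⁻¹ ≤ 4*(x-z) := by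
        rw [inv_le_iff_one_le_mul₀ (by positivity)]
        exact h5
      linarith
    · rw [Finset.Icc_eq_empty (by omega)]
      simp only [Finset.sum_empty]
      positivity

open Classical in
/-- Number of `y`-smooth integers up to `X`. -/
theorem smooth_count (y X : ℕ) :
    ((Finset.Icc 1 X).filter (fun a => ∀ p : ℕ, p.Prime → p ∣ a → p ≤ y)).card
      ≤ (X:ℝ)^(3/4:ℝ) * Real.exp (16 * (y:ℝ)^(1/4:ℝ)) := by
  have hb := PM_bound (by norm_num : (0:ℝ) < 3/4) y X
  have hinj : ((Finset.Icc 1 X).filter (fun a => ∀ p : ℕ, p.Prime → p ∣ a → p ≤ y)).card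
      ≤ (PM y X).ncard := by
    rw [Set.ncard_eq_toFinset_card _ hb.1]
    apply Finset.card_le_card_of_injOn (fun a => (Nat.primeFactorsList a : Multiset ℕ))
    · intro a ha
      simp only [Finset.coe_filter, Finset.mem_Icc, Set.mem_setOf_eq] at ha
      simp only [Set.Finite.coe_toFinset]
      refine ⟨fun p hp => ?_, ?_⟩
      · have hp' : p ∈ Nat.primeFactorsList a := by simpa using hp
        have hpp := Nat.prime_of_mem_primeFactorsList hp'
        exact ⟨hpp.two_le, ha.2 p hpp (Nat.dvd_of_mem_primeFactorsList hp')⟩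
      · rw [Multiset.prod_coe, Nat.prod_primeFactorsList (by omega)]
        exact ha.1.2
    · intro a ha b hb hab
      simp only [Finset.coe_filter, Finset.mem_Icc, Set.mem_setOf_eq] at ha hb
      have : (Nat.primeFactorsList a : Multiset ℕ).prod = (Nat.primeFactorsList b : Multiset ℕ).prod := by
        simp only at hab
        rw [hab]
      rw [Multiset.prod_coe, Multiset.prod_coe, Nat.prod_primeFactorsList (by omega),
        Nat.prod_primeFactorsList (by omega)] at this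
      exact this
  calc (((Finset.Icc 1 X).filter (fun a => ∀ p : ℕ, p.Prime → p ∣ a → p ≤ y)).card : ℝ)
      ≤ ((PM y X).ncard : ℝ) := by exact_mod_cast hinj
    _ ≤ (X:ℝ)^(3/4:ℝ) * cK (3/4) y := hb.2
    _ ≤ (X:ℝ)^(3/4:ℝ) * Real.exp (16 * (y:ℝ)^(1/4:ℝ)) := by
        apply mul_le_mul_of_nonneg_left _ (by positivity)
        refine (cK_le (by norm_num) y).trans ?_
        apply Real.exp_le_exp.mpr
        linarith [sum_quarter y]

/-- All multisets of integers `≥ 2` with product at most `X`. -/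
def PA (X : ℕ) : Set (Multiset ℕ) := {Y | (∀ y ∈ Y, 2 ≤ y) ∧ Y.prod ≤ X}

theorem PA_eq (X : ℕ) : PA X = PM X X := by
  ext Y
  constructor
  · rintro ⟨h1, h2⟩
    refine ⟨fun y hy => ⟨h1 y hy, ?_⟩, h2⟩
    exact (Nat.le_of_dvd (prod_pos_of h1) (Multiset.dvd_prod hy)).trans h2
  · rintro ⟨h1, h2⟩
    exact ⟨fun y hy => (h1 y hy).1, h2⟩

theorem PA_finite (X : ℕ) : (PA X).Finite := by
  rw [PA_eq]; exact (PM_bound one_pos X X).1

theorem PA_bound (η : ℝ) (hη : 0 < η) : ∃ C : ℝ, 1 ≤ C ∧ ∀ X : ℕ,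
    ((PA X).ncard : ℝ) ≤ C * (X:ℝ)^(1+η) := by
  have hs : Summable (fun k : ℕ => (k:ℝ)^(-(1+η))) := by
    rw [Real.summable_nat_rpow]; linarith
  refine ⟨Real.exp (4 * ∑' k : ℕ, (k:ℝ)^(-(1+η))), ?_, ?_⟩
  · apply Real.one_le_exp
    have : 0 ≤ ∑' k : ℕ, (k:ℝ)^(-(1+η)) := tsum_nonneg (fun k => by positivity)
    linarith
  · intro X
    rw [PA_eq]
    calc ((PM X X).ncard : ℝ) ≤ (X:ℝ)^(1+η) * cK (1+η) X := (PM_bound (by linarith) X X).2
      _ ≤ (X:ℝ)^(1+η) * Real.exp (4 * ∑' k : ℕ, (k:ℝ)^(-(1+η))) := by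
          apply mul_le_mul_of_nonneg_left _ (by positivity)
          refine (cK_le (by linarith) X).trans ?_
          apply Real.exp_le_exp.mpr
          have := hs.sum_le_tsum (Finset.Icc 2 X) (fun k _ => by positivity)
          linarith
      _ = _ := mul_comm _ _

end Pool.Agent.X17.SM
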