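import Pool.Agent.X17.SM.Fact

/-! The equation `σ₂ = σ_n` in terms of the entries `≥ 2`. -/

namespace Pool.Agent.X17.SM

open Finset

def Bs (Y : Multiset ℕ) : ℕ := (Y.map (fun y => y - 1)).sum
def As (Y : Multiset ℕ) : ℕ := (Y.map (fun y => y * (y - 1))).sum

theorem Bs_cons (y : ℕ) (Y : Multiset ℕ) : Bs (y ::ₘ Y) = (y - 1) + Bs Y := by simp [Bs]
theorem As_cons (y : ℕ) (Y : Multiset ℕ) : As (y ::ₘ Y) = y * (y - 1) + As Y := by simp [As]
theorem Bs_zero : Bs 0 = 0 := by simp [Bs]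
theorem As_zero : As 0 = 0 := by simp [As]

/-- The solutions of `σ₂ = σ_n`, given by the multiset of the entries `≥ 2`. -/
def Sol (n : ℕ) : Set (Multiset ℕ) :=
  {Y | (∀ y ∈ Y, 2 ≤ y) ∧ 2 * Y.prod + As Y + (n + Bs Y) = (n + Bs Y)^2}

theorem As_le {Y : Multiset ℕ} (h : ∀ y ∈ Y, 2 ≤ y) : As Y ≤ Bs Y ^2 + Bs Y := by
  induction Y using Multiset.induction_on with
  | empty => simp [As_zero]
  | cons y Y ih =>
    have h1 := h y (Multiset.mem_cons_self _ _)
    have h2 := ih (fun x hx => h x (Multiset.mem_cons_of_mem hx))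
    rw [As_cons, Bs_cons]
    obtain ⟨t, rfl⟩ : ∃ t, y = t + 1 := ⟨y - 1, by omega⟩
    simp only [Nat.add_sub_cancel]
    nlinarith [Nat.zero_le (t * Bs Y)]

theorem Bs_lt_prod {Y : Multiset ℕ} (h : ∀ y ∈ Y, 2 ≤ y) : Bs Y + 1 ≤ Y.prod := by
  induction Y using Multiset.induction_on with
  | empty => simp [Bs_zero]
  | cons y Y ih =>
    have h1 := h y (Multiset.mem_cons_self _ _)
    have h2 := ih (fun x hx => h x (Multiset.mem_cons_of_mem hx))
    rw [Bs_cons, Multiset.prod_cons]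
    obtain ⟨t, rfl⟩ : ∃ t, y = t + 1 := ⟨y - 1, by omega⟩
    simp only [Nat.add_sub_cancel]
    nlinarith [Nat.zero_le (t * Bs Y)]

theorem Bs_le {Y : Multiset ℕ} {w : ℕ} (h : ∀ y ∈ Y, y ≤ w) :
    Bs Y ≤ Multiset.card Y * w := by
  induction Y using Multiset.induction_on with
  | empty => simp [Bs_zero]
  | cons y Y ih =>
    have h1 := h y (Multiset.mem_cons_self _ _)
    have h2 := ih (fun x hx => h x (Multiset.mem_cons_of_mem hx))
    rw [Bs_cons, Multiset.card_cons, add_mul, one_mul]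
    omega

theorem As_le' {Y : Multiset ℕ} {w : ℕ} (h : ∀ y ∈ Y, y ≤ w) :
    As Y ≤ Multiset.card Y * w^2 := by
  induction Y using Multiset.induction_on with
  | empty => simp [As_zero]
  | cons y Y ih =>
    have h1 := h y (Multiset.mem_cons_self _ _)
    have h2 := ih (fun x hx => h x (Multiset.mem_cons_of_mem hx))
    rw [As_cons, Multiset.card_cons, add_mul, one_mul]
    have h3 : y * (y-1) ≤ w^2 := by
      rw [sq]; exact Nat.mul_le_mul h1 (by omega)
    omega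

theorem exists_max {Y : Multiset ℕ} (h : Y ≠ 0) : ∃ z Y', Y = z ::ₘ Y' ∧ ∀ y ∈ Y', y ≤ z := by
  obtain ⟨a, ha⟩ := Multiset.exists_mem_of_ne_zero h
  obtain ⟨z, hz, hmax⟩ := Y.toFinset.exists_max_image id ⟨a, by simpa using ha⟩
  rw [Multiset.mem_toFinset] at hz
  refine ⟨z, Y.erase z, (Multiset.cons_erase hz).symm, ?_⟩
  intro y hy
  exact hmax y (by rw [Multiset.mem_toFinset]; exact Multiset.mem_of_mem_erase hy)

theorem pow_gt1 : ∀ k : ℕ, 9 ≤ k → 4*(k+2)^2 < 2^(k+1) := by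
  intro k hk
  induction k, hk using Nat.le_induction with
  | base => norm_num
  | succ k hk ih =>
    have e : 2^(k+1+1) = 2*2^(k+1) := by rw [pow_succ 2 (k+1)]; ring
    rw [e]
    nlinarith

theorem pow_gt2 : ∀ k : ℕ, 6 ≤ k → (k+3)^2 < 2^(k+1) := by
  intro k hk
  induction k, hk using Nat.le_induction with
  | base => norm_num
  | succ k hk ih =>
    have e : 2^(k+1+1) = 2*2^(k+1) := by rw [pow_succ 2 (k+1)]; ring
    rw [e]
    nlinarith

/-- The basic identity after removing one entry. -/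
theorem basic {n z : ℕ} {Y : Multiset ℕ} (hn : 3 ≤ n) (h : z ::ₘ Y ∈ Sol n) :
    2*z*Y.prod + As Y + (n - 1 + Bs Y) = (n - 1 + Bs Y)^2 + 2*(n - 1 + Bs Y)*z := by
  have h1 := h.2
  have hz := h.1 z (Multiset.mem_cons_self _ _)
  rw [As_cons, Bs_cons, Multiset.prod_cons] at h1
  obtain ⟨t, rfl⟩ : ∃ t, z = t + 1 := ⟨z - 1, by omega⟩
  obtain ⟨q, rfl⟩ : ∃ q, n = q + 1 := ⟨n - 1, by omega⟩
  simp only [Nat.add_sub_cancel] at h1 ⊢
  nlinarith [h1]

theorem prod_gt {n z : ℕ} {Y : Multiset ℕ} (hn : 3 ≤ n) (h : z ::ₘ Y ∈ Sol n) :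
    n - 1 + Bs Y < Y.prod := by
  have hb := basic hn h
  have hz := h.1 z (Multiset.mem_cons_self _ _)
  have hA := As_le (fun y hy => h.1 y (Multiset.mem_cons_of_mem hy))
  by_contra hcon
  push Not at hcon
  set s := n - 1 + Bs Y with hs
  have hs2 : Bs Y + 2 ≤ s := by omega
  have h1 : 2*z*Y.prod ≤ 2*z*s := Nat.mul_le_mul_left _ hcon
  have h2 : s^2 ≤ As Y + s := by nlinarith
  nlinarith

/-- Structure of the solutions. -/
theorem struct {n : ℕ} (hn : 3 ≤ n) {Y : Multiset ℕ} (hY : Y ∈ Sol n) :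
    ∃ z w Y2, Y = z ::ₘ w ::ₘ Y2 ∧ Y2 ≠ 0 ∧ (∀ y ∈ w ::ₘ Y2, y ≤ z) ∧
      n - 1 + Bs (w ::ₘ Y2) ≤ (2*Nat.log 2 n + 10)*(3*n+90) ∧
      Multiset.card Y ≤ 2*Nat.log 2 n + 10 := by
  have hY0 : Y ≠ 0 := by
    rintro rfl
    have := hY.2
    simp only [Multiset.prod_zero, As_zero, Bs_zero] at this
    nlinarith
  obtain ⟨z, Y1, rfl, hz⟩ := exists_max hY0
  have h1 := prod_gt hn hY
  have hY1 : Y1 ≠ 0 := by
    rintro rfl
    simp only [Multiset.prod_zero, Bs_zero] at h1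
    omega
  obtain ⟨w, Y2, rfl, hw⟩ := exists_max hY1
  have hge : ∀ y ∈ Y2, 2 ≤ y := fun y hy =>
    hY.1 y (Multiset.mem_cons_of_mem (Multiset.mem_cons_of_mem hy))
  have hw2 : 2 ≤ w := hY.1 w (Multiset.mem_cons_of_mem (Multiset.mem_cons_self _ _))
  have hY2 : Y2 ≠ 0 := by
    rintro rfl
    simp only [Multiset.prod_cons, Multiset.prod_zero, Bs_cons, Bs_zero] at h1
    omega
  refine ⟨z, w, Y2, rfl, hY2, hz, ?_⟩
  have hwz : w ≤ z := hz w (Multiset.mem_cons_self _ _)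
  have hb := basic hn hY
  set k := Multiset.card Y2 with hk
  have hPk := two_pow_card_le hge
  rw [← hk] at hPk
  have hBP := Bs_lt_prod hge
  have hBk : Bs Y2 ≤ k * w := Bs_le hw
  rw [Bs_cons] at hb h1 ⊢
  rw [Multiset.prod_cons] at hb h1
  rw [As_cons] at hb
  set P := Y2.prod with hP
  set B := Bs Y2 with hB
  set s := n - 1 + (w - 1 + B) with hs
  have hkpos : 1 ≤ k := by
    rw [hk]; exact Multiset.card_pos.mpr hY2
  have hP2 : 2 ≤ P := by
    have : 2^1 ≤ 2^k := Nat.pow_le_pow_right (by norm_num) hkpos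
    omega
  -- main inequality
  have m1 : 2*w^2*P ≤ (s+w)^2 := by
    -- 2 z (wP - s) ≤ s^2
    obtain ⟨D, hD⟩ : ∃ D, w*P = s + D := ⟨w*P - s, by omega⟩
    have e1 : 2*z*D ≤ s^2 := by
      have : 2*z*(w*P) = 2*z*s + 2*z*D := by rw [hD]; ring
      nlinarith
    have e2 : 2*w*D ≤ s^2 := (Nat.mul_le_mul_right _ (Nat.mul_le_mul_left _ hwz)).trans e1
    have e3 : 2*w^2*P = 2*w*s + 2*w*D := by
      have : 2*w^2*P = 2*w*(w*P) := by ring
      rw [this, hD]; ring
    nlinarith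
  have m2 : s + w ≤ n + (k+2)*w := by
    have : (k+2)*w = k*w + 2*w := by ring
    omega
  have hkb : k ≤ 2*Nat.log 2 n + 8 := by
    by_contra hcon
    push Not at hcon
    have f1 : 2*w^2*2^k ≤ w^2*(n+k+2)^2 := by
      calc 2*w^2*2^k ≤ 2*w^2*P := Nat.mul_le_mul_left _ hPk
        _ ≤ (s+w)^2 := m1
        _ ≤ (n + (k+2)*w)^2 := Nat.pow_le_pow_left m2 2
        _ ≤ (w*(n+k+2))^2 := by
            apply Nat.pow_le_pow_left
            nlinarith
        _ = _ := by ring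
    have f2 : 2^(k+1) ≤ (n+k+2)^2 := by
      have hw0 : 0 < w^2 := by positivity
      apply Nat.le_of_mul_le_mul_left _ hw0
      calc w^2*2^(k+1) = 2*w^2*2^k := by rw [pow_succ]; ring
        _ ≤ _ := f1
    set l := Nat.log 2 n with hl
    have hnl : n < 2^(l+1) := Nat.lt_pow_succ_log_self (by norm_num) n
    rcases Nat.lt_or_ge n (k+2) with h3 | h3
    · have f3 := pow_gt1 k (by omega)
      have f4 : (n+k+2)^2 ≤ (2*(k+2))^2 := Nat.pow_le_pow_left (by omega) 2
      nlinarith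
    · have f4 : (n+k+2)^2 ≤ (2*n)^2 := Nat.pow_le_pow_left (by omega) 2
      have f5 : (2*n)^2 < (2*2^(l+1))^2 := Nat.pow_lt_pow_left (by omega) (by norm_num)
      have f6 : (2*2^(l+1))^2 = 2^(2*l+4) := by
        rw [← pow_succ', ← pow_mul]; congr 1; ring
      have f7 : 2^(2*l+4) ≤ 2^(k+1) := Nat.pow_le_pow_right (by norm_num) (by omega)
      omega
  have hwb : w ≤ 3*n+90 := by
    rcases Nat.lt_or_ge w n with h3 | h3
    · omega
    · have g0 : s + w ≤ (k+3)*w := by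
        have : (k+3)*w = (k+2)*w + w := by ring
        omega
      have g1 : 2*w^2*P ≤ w^2*(k+3)^2 := by
        calc 2*w^2*P ≤ (s+w)^2 := m1
          _ ≤ ((k+3)*w)^2 := Nat.pow_le_pow_left g0 2
          _ = _ := by ring
      have hw0 : 0 < w^2 := by positivity
      have g2 : 2*P ≤ (k+3)^2 := by
        apply Nat.le_of_mul_le_mul_left _ hw0
        calc w^2*(2*P) = 2*w^2*P := by ring
          _ ≤ _ := g1
      have g3 : k ≤ 5 := by
        by_contra hcon
        push Not at hcon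
        have := pow_gt2 k hcon
        have e : 2^(k+1) = 2*2^k := by rw [pow_succ]; ring
        omega
      have g4 : P ≤ 32 := by
        have : (k+3)^2 ≤ 8^2 := Nat.pow_le_pow_left (by omega) 2
        omega
      by_contra hcon
      push Not at hcon
      -- e = n - 1 + B, s = e + w - 1
      obtain ⟨e, he⟩ : ∃ e, e = n - 1 + B := ⟨_, rfl⟩
      have he1 : e ≤ n + 30 := by omega
      have he2 : s + 1 = e + w := by omega
      have he3 : 2 ≤ e := by omega
      obtain ⟨D, hD⟩ : ∃ D, w*P = s + D := ⟨w*P - s, by omega⟩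
      have e4 : 2*w ≤ s + D := by rw [← hD, mul_comm]; exact Nat.mul_le_mul_left _ hP2
      have e5 : 2*z*D + (w*(w-1) + As Y2) + s = s^2 := by
        have : 2*z*(w*P) = 2*z*s + 2*z*D := by rw [hD]; ring
        nlinarith
      have e6 : 2*w*D ≤ 2*z*D := Nat.mul_le_mul_right _ (Nat.mul_le_mul_left _ hwz)
      have e7 : 2*w*D + w*(w-1) + s ≤ s^2 := by omega
      have e8 : (2*w*D + w*(w-1) + s : ℤ) ≤ s^2 := by
        have : ((2*w*D + w*(w-1) + s : ℕ):ℤ) ≤ ((s^2:ℕ):ℤ) := by exact_mod_cast e7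
        push_cast [Nat.cast_sub (by omega : 1 ≤ w)] at this
        exact this
      have e9 : (w:ℤ) + 1 - e ≤ D := by
        have : (2*w:ℤ) ≤ s + D := by exact_mod_cast e4
        have h2 : (s:ℤ) + 1 = e + w := by exact_mod_cast he2
        linarith
      have e10 : (s:ℤ) = e + w - 1 := by
        have h2 : (s:ℤ) + 1 = e + w := by exact_mod_cast he2
        linarith
      have e11 : (3*e:ℤ) ≤ w := by
        have : (3*e:ℤ) ≤ 3*(n+30) := by
          have : (e:ℤ) ≤ n + 30 := by exact_mod_cast he1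
          linarith
        have h2 : (3*n+90:ℤ) < w := by exact_mod_cast hcon
        linarith
      have hw' : (2:ℤ) ≤ w := by exact_mod_cast hw2
      have he' : (2:ℤ) ≤ e := by exact_mod_cast he3
      rw [e10] at e8
      have e12 : 2*(w:ℤ)*((w:ℤ)+1-e) ≤ 2*w*D := by
        apply mul_le_mul_of_nonneg_left e9; positivity
      nlinarith [mul_nonneg (by linarith : (0:ℤ) ≤ w) (by linarith : (0:ℤ) ≤ w - 3*e)]
  constructor
  · have h5 : k*w ≤ (2*Nat.log 2 n + 8)*(3*n+90) := Nat.mul_le_mul hkb hwb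
    have h6 : (2*Nat.log 2 n + 10)*(3*n+90) = (2*Nat.log 2 n + 8)*(3*n+90) + 2*(3*n+90) := by ring
    omega
  · rw [Multiset.card_cons, Multiset.card_cons]
    omega

end Pool.Agent.X17.SM
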