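import Pool.Agent.X17.SM.Count

/-! Unordered factorizations. -/

namespace Pool.Agent.X17.SM

open Finset

/-- Factorizations of `n` into integers `≥ 2`. -/
def Fz (n : ℕ) : Set (Multiset ℕ) := {Y | (∀ y ∈ Y, 2 ≤ y) ∧ Y.prod = n}

theorem Fz_sub (n : ℕ) : Fz n ⊆ PA n := fun _ hY => ⟨hY.1, hY.2.le⟩

theorem Fz_finite (n : ℕ) : (Fz n).Finite := (PA_finite n).subset (Fz_sub n)

theorem two_pow_card_le {Y : Multiset ℕ} (h : ∀ y ∈ Y, 2 ≤ y) : 2 ^ Multiset.card Y ≤ Y.prod := by
  induction Y using Multiset.induction_on with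
  | empty => simp
  | cons y Y ih =>
    rw [Multiset.card_cons, Multiset.prod_cons, pow_succ, mul_comm]
    exact Nat.mul_le_mul (h y (Multiset.mem_cons_self _ _))
      (ih (fun x hx => h x (Multiset.mem_cons_of_mem hx)))

theorem Fz_mul_prime {n p : ℕ} (hn : 0 < n) (hp : p.Prime) :
    (Fz (n * p)).ncard ≤ (Fz n).ncard * (Nat.log 2 n + 1) := by
  classical
  set G : Multiset ℕ → Finset (Multiset ℕ) := fun Y0 =>
    (insert 1 Y0.toFinset).image (fun v => if v = 1 then p ::ₘ Y0 else (v*p) ::ₘ Y0.erase v) with hG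
  have hsub : (Fz_finite (n*p)).toFinset ⊆ (Fz_finite n).toFinset.biUnion G := by
    intro Y hY
    rw [Set.Finite.mem_toFinset] at hY
    rw [Finset.mem_biUnion]
    have hpd : p ∣ Y.prod := by rw [hY.2]; exact dvd_mul_left p n
    obtain ⟨y, hy, hpy⟩ := (Nat.Prime.prime hp).exists_mem_multiset_dvd hpd
    obtain ⟨v, hv⟩ := hpy
    have hy2 := hY.1 y hy
    have hpe : y * (Y.erase y).prod = n * p := by rw [Multiset.prod_erase hy, hY.2]
    have hv0 : v ≠ 0 := by rintro rfl; omega
    have hve : v * (Y.erase y).prod = n := by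
      have h1 : p * (v * (Y.erase y).prod) = p * n := by
        rw [← mul_assoc, ← hv, hpe, mul_comm]
      exact Nat.eq_of_mul_eq_mul_left hp.pos h1
    by_cases h1 : v = 1
    · refine ⟨Y.erase y, ?_, ?_⟩
      · rw [Set.Finite.mem_toFinset]
        refine ⟨fun x hx => hY.1 x (Multiset.mem_of_mem_erase hx), ?_⟩
        rw [h1, one_mul] at hve; exact hve
      · rw [hG]
        simp only [Finset.mem_image]
        refine ⟨1, Finset.mem_insert_self _ _, ?_⟩
        rw [if_pos rfl]
        have : p = y := by rw [hv, h1, mul_one]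
        rw [this]; exact Multiset.cons_erase hy
    · refine ⟨v ::ₘ Y.erase y, ?_, ?_⟩
      · rw [Set.Finite.mem_toFinset]
        refine ⟨fun x hx => ?_, ?_⟩
        · rcases Multiset.mem_cons.mp hx with h | h
          · omega
          · exact hY.1 x (Multiset.mem_of_mem_erase h)
        · rw [Multiset.prod_cons]; exact hve
      · rw [hG]
        simp only [Finset.mem_image]
        refine ⟨v, ?_, ?_⟩
        · apply Finset.mem_insert_of_mem
          rw [Multiset.mem_toFinset]; exact Multiset.mem_cons_self _ _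
        · rw [if_neg h1, Multiset.erase_cons_head, mul_comm, ← hv]
          exact Multiset.cons_erase hy
  rw [Set.ncard_eq_toFinset_card _ (Fz_finite (n*p)), Set.ncard_eq_toFinset_card _ (Fz_finite n)]
  calc _ ≤ _ := Finset.card_le_card hsub
    _ ≤ _ := Finset.card_biUnion_le
    _ ≤ ∑ _Y ∈ (Fz_finite n).toFinset, (Nat.log 2 n + 1) := by
        apply Finset.sum_le_sum
        intro Y0 hY0
        rw [Set.Finite.mem_toFinset] at hY0
        calc (G Y0).card ≤ (insert 1 Y0.toFinset).card := Finset.card_image_le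
          _ ≤ Y0.toFinset.card + 1 := Finset.card_insert_le _ _
          _ ≤ Multiset.card Y0 + 1 := by
              have := Multiset.toFinset_card_le Y0
              omega
          _ ≤ _ := by
              have h1 := two_pow_card_le hY0.1
              rw [hY0.2] at h1
              have := Nat.le_log_of_pow_le (by norm_num) h1
              omega
    _ = _ := by rw [Finset.sum_const, smul_eq_mul]

theorem Fz_rough {a L : ℕ} (ha : 0 < a) : ∀ b : ℕ, 0 < b →
    (∀ p : ℕ, p.Prime → p ∣ b → L^3 ≤ p) → Nat.log 2 (a*b) + 1 ≤ L →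
    (Fz (a*b)).ncard^3 ≤ (Fz a).ncard^3 * b := by
  intro b
  induction b using Nat.strong_induction_on with
  | _ b ih =>
    intro hb hp hL
    by_cases h1 : b = 1
    · subst h1; simp
    · have hpp := Nat.minFac_prime h1
      set p := b.minFac with hpdef
      obtain ⟨c, hc⟩ := Nat.minFac_dvd b
      rw [← hpdef] at hc
      have hc0 : 0 < c := Nat.pos_of_ne_zero (by rintro rfl; omega)
      have hcb : c < b := by rw [hc]; nlinarith [hpp.two_le]
      have hlog : Nat.log 2 (a*c) ≤ Nat.log 2 (a*b) :=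
        Nat.log_mono_right (Nat.mul_le_mul_left _ hcb.le)
      have h2 := ih c hcb hc0 (fun q hq hqc => hp q hq (hqc.trans ⟨p, by rw [hc, mul_comm]⟩))
        (by omega)
      have h3 : (Fz (a*b)).ncard ≤ (Fz (a*c)).ncard * L := by
        have h4 := Fz_mul_prime (n := a*c) (Nat.mul_pos ha hc0) hpp
        have e : a*c*p = a*b := by rw [hc]; ring
        rw [e] at h4
        exact h4.trans (Nat.mul_le_mul_left _ (by omega))
      calc (Fz (a*b)).ncard^3 ≤ ((Fz (a*c)).ncard * L)^3 := Nat.pow_le_pow_left h3 3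
        _ = (Fz (a*c)).ncard^3 * L^3 := by ring
        _ ≤ ((Fz a).ncard^3 * c) * p :=
            Nat.mul_le_mul h2 (hp p hpp (Nat.minFac_dvd b))
        _ = (Fz a).ncard^3 * b := by
            have e : c * p = b := by rw [mul_comm]; exact hc.symm
            rw [mul_assoc, e]

theorem smooth_rough (y : ℕ) : ∀ N : ℕ, 0 < N → ∃ a b : ℕ, N = a * b ∧ 0 < a ∧ 0 < b ∧
    (∀ p : ℕ, p.Prime → p ∣ a → p ≤ y) ∧ (∀ p : ℕ, p.Prime → p ∣ b → y < p) := by
  intro N
  induction N using Nat.strong_induction_on with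
  | _ N ih =>
    intro hN
    by_cases h1 : N = 1
    · refine ⟨1, 1, by simp [h1], by norm_num, by norm_num, ?_, ?_⟩ <;>
      · intro p hp hd
        have := Nat.le_of_dvd (by norm_num) hd
        have := hp.two_le
        omega
    · have hpp := Nat.minFac_prime h1
      set p := N.minFac with hpdef
      obtain ⟨c, hc⟩ := Nat.minFac_dvd N
      rw [← hpdef] at hc
      have hc0 : 0 < c := Nat.pos_of_ne_zero (by rintro rfl; omega)
      have hcb : c < N := by rw [hc]; nlinarith [hpp.two_le]
      obtain ⟨a, b, hab, ha, hb, h2, h3⟩ := ih c hcb hc0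
      rcases Nat.lt_or_ge y p with h | h
      · refine ⟨a, p*b, by rw [hc, hab]; ring, ha, Nat.mul_pos hpp.pos hb, h2, ?_⟩
        intro q hq hqd
        rcases (Nat.Prime.dvd_mul hq).mp hqd with h4 | h4
        · have := (Nat.prime_dvd_prime_iff_eq hq hpp).mp h4
          omega
        · exact h3 q hq h4
      · refine ⟨p*a, b, by rw [hc, hab]; ring, Nat.mul_pos hpp.pos ha, hb, ?_, h3⟩
        intro q hq hqd
        rcases (Nat.Prime.dvd_mul hq).mp hqd with h4 | h4
        · have := (Nat.prime_dvd_prime_iff_eq hq hpp).mp h4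
          omega
        · exact h2 q hq h4

theorem window {M y : ℕ} (hM : 0 < M) : ∀ a : ℕ, M ≤ a →
    (∀ p : ℕ, p.Prime → p ∣ a → p ≤ y) → ∃ d : ℕ, d ∣ a ∧ M ≤ d ∧ d ≤ M * y + M := by
  intro a
  induction a using Nat.strong_induction_on with
  | _ a ih =>
    intro hMa hp
    rcases Nat.lt_or_ge (M*y + M) a with h | h
    · have h1 : a ≠ 1 := by
        have : 0 ≤ M * y := Nat.zero_le _
        omega
      have hpp := Nat.minFac_prime h1
      set p := a.minFac with hpdef
      obtain ⟨c, hc⟩ := Nat.minFac_dvd a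
      rw [← hpdef] at hc
      have hc0 : 0 < c := Nat.pos_of_ne_zero (by rintro rfl; omega)
      have hcb : c < a := by rw [hc]; nlinarith [hpp.two_le]
      have hpy := hp p hpp (Nat.minFac_dvd a)
      have hcd : c ∣ a := ⟨p, by rw [hc, mul_comm]⟩
      have hMc : M ≤ c := by
        by_contra hcon
        push Not at hcon
        have : a ≤ y * M := by
          rw [hc]; exact Nat.mul_le_mul hpy hcon.le
        have e : y * M = M * y := mul_comm _ _
        omega
      obtain ⟨d, hd, h2⟩ := ih c hcb hMc (fun q hq hqc => hp q hq (hqc.trans hcd))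
      exact ⟨d, hd.trans hcd, h2⟩
    · exact ⟨a, dvd_rfl, hMa, h⟩

end Pool.Agent.X17.SM
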