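import Pool.Agent.X17.SM.Big

/-! Many solutions for special `n`. -/

namespace Pool.Agent.X17.SM

open Finset

/-- Solutions with at most `n` entries `≥ 2`. -/
def SolC (n : ℕ) : Set (Multiset ℕ) := {Y | Y ∈ Sol n ∧ Multiset.card Y ≤ n}

section
variable {q R : ℕ} (p : Fin (R+1) → Fin q → ℕ)

def el (π : Fin R → Equiv.Perm (Fin q)) (j : Fin q) : ℕ := p 0 j * ∏ i : Fin R, p i.succ (π i j)

def yM (π : Fin R → Equiv.Perm (Fin q)) : Multiset ℕ := (Finset.univ : Finset (Fin q)).val.map (el p π)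

def PP : ℕ := (∏ j, p 0 j) * ∏ i : Fin R, ∏ j, p i.succ j

theorem yM_prod (π : Fin R → Equiv.Perm (Fin q)) : (yM p π).prod = PP p := by
  unfold yM PP el
  change ∏ j, _ = _
  rw [Finset.prod_mul_distrib, Finset.prod_comm]
  congr 1
  apply Finset.prod_congr rfl
  intro i _
  exact Equiv.prod_comp (π i) (fun j => p i.succ j)

theorem yM_card (π : Fin R → Equiv.Perm (Fin q)) : Multiset.card (yM p π) = q := by
  unfold yM; simp

variable {p} (hp : ∀ i j, (p i j).Prime) (hinj : ∀ i j i' j', p i j = p i' j' → i = i' ∧ j = j')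
include hp

theorem el_ge (π : Fin R → Equiv.Perm (Fin q)) (j : Fin q) : 2 ≤ el p π j := by
  unfold el
  have h1 : 0 < ∏ i : Fin R, p i.succ (π i j) := Finset.prod_pos (fun i _ => (hp _ _).pos)
  have h2 := (hp 0 j).two_le
  nlinarith

theorem yM_ge (π : Fin R → Equiv.Perm (Fin q)) : ∀ y ∈ yM p π, 2 ≤ y := by
  intro y hy
  unfold yM at hy
  rw [Multiset.mem_map] at hy
  obtain ⟨j, _, rfl⟩ := hy
  exact el_ge hp π j

omit hp in
theorem el_le {x : ℕ} (hx : ∀ i j, p i j ≤ x) (π : Fin R → Equiv.Perm (Fin q)) (j : Fin q) :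
    el p π j ≤ x^(R+1) := by
  unfold el
  rw [pow_succ, mul_comm]
  apply Nat.mul_le_mul _ (hx _ _)
  calc ∏ i : Fin R, p i.succ (π i j) ≤ ∏ _i : Fin R, x := Finset.prod_le_prod' (fun i _ => hx _ _)
    _ = x^R := by simp

include hinj in
theorem yM_inj {π π' : Fin R → Equiv.Perm (Fin q)} (h : yM p π = yM p π') : π = π' := by
  have key : ∀ j, el p π j = el p π' j := by
    intro j
    have h1 : el p π j ∈ yM p π' := by
      rw [← h]; unfold yM
      exact Multiset.mem_map_of_mem _ (Finset.mem_univ j)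
    unfold yM at h1
    rw [Multiset.mem_map] at h1
    obtain ⟨j', _, hj'⟩ := h1
    have h2 : p 0 j ∣ el p π' j' := by
      rw [hj']; unfold el; exact dvd_mul_right _ _
    unfold el at h2
    rcases (Nat.Prime.dvd_mul (hp 0 j)).mp h2 with h3 | h3
    · have h4 := (Nat.prime_dvd_prime_iff_eq (hp 0 j) (hp 0 j')).mp h3
      have := (hinj _ _ _ _ h4).2
      rw [← this] at hj'
      exact hj'.symm
    · exfalso
      obtain ⟨i, _, hi⟩ := (Prime.dvd_finsetProd_iff (hp 0 j).prime _).mp h3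
      have h4 := (Nat.prime_dvd_prime_iff_eq (hp 0 j) (hp _ _)).mp hi
      exact absurd (hinj _ _ _ _ h4).1 (Fin.succ_ne_zero i).symm
  funext i
  ext j
  have h1 := key j
  unfold el at h1
  have h2 := Nat.eq_of_mul_eq_mul_left (hp 0 j).pos h1
  have h3 : p i.succ (π i j) ∣ ∏ i : Fin R, p i.succ (π' i j) := by
    rw [← h2]; exact Finset.dvd_prod_of_mem _ (Finset.mem_univ i)
  obtain ⟨i', _, hi⟩ := (Prime.dvd_finsetProd_iff (hp _ _).prime _).mp h3
  have h4 := (Nat.prime_dvd_prime_iff_eq (hp _ _) (hp _ _)).mp hi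
  obtain ⟨h5, h6⟩ := hinj _ _ _ _ h4
  have h7 : i = i' := Fin.succ_injective _ h5
  subst h7
  rw [h6]

omit hp in
theorem even_sub (s A : ℕ) (hA : Even A) : Even (s^2 - s - A) := by
  rcases Nat.lt_or_ge (s^2 - s) A with h | h
  · rw [Nat.sub_eq_zero_of_le h.le]; exact Even.zero
  · have h1 : Even (s^2 - s) := by
      rw [sq]
      rcases Nat.eq_zero_or_pos s with h0 | h0
      · subst h0; simp
      · have e : s*s - s = (s-1)*s := by rw [Nat.sub_mul, one_mul]
        rw [e]
        obtain ⟨t, rfl⟩ : ∃ t, s = t+1 := ⟨s-1, by omega⟩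
        simp only [Nat.add_sub_cancel]
        exact Nat.even_mul_succ_self t
    exact (Nat.even_sub h).mpr (iff_of_true h1 hA)

omit hp in
theorem even_As (Y : Multiset ℕ) : Even (As Y) := by
  induction Y using Multiset.induction_on with
  | empty => rw [As_zero]; exact Even.zero
  | cons y Y ih =>
    rw [As_cons]
    apply Even.add _ ih
    rcases Nat.eq_zero_or_pos y with h0 | h0
    · subst h0; simp
    · obtain ⟨t, rfl⟩ : ∃ t, y = t+1 := ⟨y-1, by omega⟩
      simp only [Nat.add_sub_cancel]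
      rw [mul_comm]; exact Nat.even_mul_succ_self t

omit hp in
/-- Completing a multiset to a solution. -/
theorem complete {Y : Multiset ℕ} (hY : ∀ y ∈ Y, 2 ≤ y) (hB : 1 ≤ Bs Y) {n : ℕ} (hn : 3 ≤ n)
    (h : n + Bs Y = Y.prod) :
    (((Y.prod - 1)^2 - (Y.prod - 1) - As Y)/2) ::ₘ Y ∈ Sol n := by
  obtain ⟨s, hs⟩ : ∃ s, Y.prod = s + 1 := ⟨Y.prod - 1, by omega⟩
  have hs' : Y.prod - 1 = s := by omega
  rw [hs']
  have hA := As_le hY
  have hev := even_sub s (As Y) (even_As Y)
  obtain ⟨z, hz⟩ := hev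
  have hz2 : (s^2 - s - As Y)/2 = z := by omega
  rw [hz2]
  have hBs : Bs Y + 2 ≤ s := by omega
  have hge : As Y + s + 4 ≤ s^2 := by nlinarith
  have hz3 : 2 * z + As Y + s = s^2 := by omega
  have hz4 : 2 ≤ z := by omega
  refine ⟨?_, ?_⟩
  · intro y hy
    rcases Multiset.mem_cons.mp hy with h1 | h1
    · omega
    · exact hY y h1
  · rw [Multiset.prod_cons, As_cons, Bs_cons, hs]
    obtain ⟨t, rfl⟩ : ∃ t, z = t+1 := ⟨z-1, by omega⟩
    simp only [Nat.add_sub_cancel]
    have e : n + (t + Bs Y) = s + 1 + t := by omega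
    rw [e]
    nlinarith [hz3]

include hinj in
theorem low_core {x N : ℕ} (hq : 1 ≤ q) (hx : ∀ i j, p i j ≤ x)
    (hP : q*x^(R+1) + q + N + 4 ≤ PP p) :
    ∃ n, N ≤ n ∧ n ≤ PP p ∧ q.factorial^R ≤ (q*x^(R+1)+1) * (SolC n).ncard := by
  classical
  have hBle : ∀ π, Bs (yM p π) ≤ q*x^(R+1) := by
    intro π
    have := Bs_le (Y := yM p π) (w := x^(R+1)) (by
      intro y hy
      unfold yM at hy
      rw [Multiset.mem_map] at hy
      obtain ⟨j, _, rfl⟩ := hy
      exact el_le hx π j)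
    rwa [yM_card] at this
  have hBge : ∀ π, 1 ≤ Bs (yM p π) := by
    intro π
    have h1 : el p π ⟨0, hq⟩ ∈ yM p π := by
      unfold yM
      exact Multiset.mem_map_of_mem _ (Finset.mem_univ_val _)
    obtain ⟨Y, hY⟩ := Multiset.exists_cons_of_mem h1
    rw [hY, Bs_cons]
    have := el_ge hp π ⟨0, hq⟩
    omega
  have hmaps : ∀ π ∈ (Finset.univ : Finset (Fin R → Equiv.Perm (Fin q))),
      PP p - Bs (yM p π) ∈ Finset.Icc (PP p - q*x^(R+1)) (PP p) := by
    intro π _
    rw [Finset.mem_Icc]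
    have := hBle π
    exact ⟨by omega, by omega⟩
  by_contra hcon
  push Not at hcon
  have hcard : ∀ n ∈ Finset.Icc (PP p - q*x^(R+1)) (PP p),
      ((Finset.univ : Finset (Fin R → Equiv.Perm (Fin q))).filter
        (fun π => PP p - Bs (yM p π) = n)).card ≤ (SolC n).ncard := by
    intro n hn
    rw [Finset.mem_Icc] at hn
    have hfin : (SolC n).Finite := (Sol_finite (by omega)).subset (fun Y hY => hY.1)
    rw [Set.ncard_eq_toFinset_card _ hfin]
    apply Finset.card_le_card_of_injOn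
      (fun π => ((((yM p π).prod - 1)^2 - ((yM p π).prod - 1) - As (yM p π))/2) ::ₘ yM p π)
    · intro π hπ
      rw [Finset.mem_coe, Finset.mem_filter] at hπ
      simp only [Set.Finite.coe_toFinset]
      have h1 := hBle π
      have h2 := yM_prod p π
      refine ⟨complete (yM_ge hp π) (hBge π) (by omega) (by omega), ?_⟩
      rw [Multiset.card_cons, yM_card]
      omega
    · intro π hπ π' hπ' hh
      simp only at hh
      have hpr := congrArg Multiset.prod hh
      rw [Multiset.prod_cons, Multiset.prod_cons, yM_prod, yM_prod] at hpr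
      have hz := Nat.eq_of_mul_eq_mul_right (by omega : 0 < PP p) hpr
      rw [yM_prod, yM_prod, hz] at hh
      exact yM_inj hp hinj ((Multiset.cons_inj_right _).mp hh)
  have htot : (Finset.univ : Finset (Fin R → Equiv.Perm (Fin q))).card = q.factorial^R := by
    rw [Finset.card_univ, Fintype.card_fun, Fintype.card_perm, Fintype.card_fin, Fintype.card_fin]
  rw [Finset.card_eq_sum_card_fiberwise hmaps] at htot
  have hcI : (Finset.Icc (PP p - q*x^(R+1)) (PP p)).card = q*x^(R+1)+1 := by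
    rw [Nat.card_Icc]; omega
  have h5 : ∑ n ∈ Finset.Icc (PP p - q*x^(R+1)) (PP p), (q*x^(R+1)+1) *
      ((Finset.univ : Finset (Fin R → Equiv.Perm (Fin q))).filter
        (fun π => PP p - Bs (yM p π) = n)).card
      < ∑ _n ∈ Finset.Icc (PP p - q*x^(R+1)) (PP p), q.factorial^R := by
    apply Finset.sum_lt_sum_of_nonempty
    · rw [Finset.nonempty_Icc]; omega
    · intro n hn
      have h6 := hcard n hn
      rw [Finset.mem_Icc] at hn
      have h7 := hcon n (by omega) hn.2
      exact lt_of_le_of_lt (Nat.mul_le_mul_left _ h6) h7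
  rw [← Finset.mul_sum, htot, Finset.sum_const, hcI, smul_eq_mul] at h5
  exact lt_irrefl _ h5

end

end Pool.Agent.X17.SM
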