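import Mathlib

/-! Number of `s` in an interval with `a ∣ s (s - 1) - A`. -/

namespace Pool.Agent.X17.SM

open Finset

/-- `a` divides `s (s-1) - A` (over the integers). -/
def RD (a A s : ℕ) : Prop := (a:ℤ) ∣ (s:ℤ)*((s:ℤ)-1) - A

theorem root_aux {a A : ℕ} (ha : 0 < a) {s t : ℕ} (hs : RD a A s) (ht : RD a A t) :
    ∃ g : ℕ, g ∈ a.divisors ∧ g = Int.gcd ((s:ℤ) - t) a ∧ ((g:ℕ):ℤ) ∣ (s:ℤ) - t ∧
      ((a/g : ℕ):ℤ) ∣ (s:ℤ) + t - 1 := by
  refine ⟨Int.gcd ((s:ℤ) - t) a, ?_, rfl, Int.gcd_dvd_left _ _, ?_⟩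
  · rw [Nat.mem_divisors]
    exact ⟨Int.natCast_dvd_natCast.mp (Int.gcd_dvd_right _ _), by omega⟩
  · have h1 : (a:ℤ) ∣ ((s:ℤ) - t) * ((s:ℤ) + t - 1) := by
      have := dvd_sub hs ht
      have e : ((s:ℤ)*((s:ℤ)-1) - A) - ((t:ℤ)*((t:ℤ)-1) - A) = ((s:ℤ) - t) * ((s:ℤ) + t - 1) := by
        ring
      rwa [e] at this
    set g := Int.gcd ((s:ℤ) - t) a with hg
    have hgpos : 0 < g := Int.gcd_pos_of_ne_zero_right _ (by exact_mod_cast ha.ne')
    have hga : g ∣ a := Int.natCast_dvd_natCast.mp (Int.gcd_dvd_right _ _)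
    have hgs : (g:ℤ) ∣ (s:ℤ) - t := Int.gcd_dvd_left _ _
    obtain ⟨x, hx⟩ := hgs
    obtain ⟨b, hb⟩ := hga
    have hab : a / g = b := by rw [hb]; exact Nat.mul_div_cancel_left b hgpos
    rw [hab]
    have hcop : IsCoprime (b:ℤ) x := by
      have h2 : Int.gcd (((s:ℤ) - t)/g) ((a:ℤ)/g) = 1 := Int.gcd_div_gcd_div_gcd hgpos
      have e1 : ((s:ℤ) - t)/g = x := by
        rw [hx]; exact Int.mul_ediv_cancel_left x (by exact_mod_cast hgpos.ne')
      have e2 : ((a:ℤ)/g) = b := by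
        rw [hb]; push_cast; exact Int.mul_ediv_cancel_left _ (by exact_mod_cast hgpos.ne')
      rw [e1, e2] at h2
      exact (Int.isCoprime_iff_gcd_eq_one.mpr h2).symm
    have h3 : (g:ℤ) * b ∣ (g:ℤ) * (x * ((s:ℤ) + t - 1)) := by
      rw [hx, hb] at h1
      push_cast at h1
      rwa [mul_assoc] at h1
    have h4 : (b:ℤ) ∣ x * ((s:ℤ) + t - 1) :=
      Int.dvd_of_mul_dvd_mul_left (by exact_mod_cast hgpos.ne') h3
    exact hcop.dvd_of_dvd_mul_left h4

open Classical in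
theorem block_count {a A : ℕ} (ha : 0 < a) (c : ℕ) :
    ((Finset.Ico c (c+a)).filter (fun s => RD a A s)).card ≤
      a.divisors.card * Nat.sqrt (4*A+1) := by
  set T := (Finset.Ico c (c+a)).filter (fun s => RD a A s) with hT
  rcases T.eq_empty_or_nonempty with h | ⟨t, ht⟩
  · rw [h]; simp
  have htR : RD a A t := (Finset.mem_filter.mp ht).2
  have hmaps : ∀ s ∈ T, Int.gcd ((s:ℤ) - t) a ∈ a.divisors := by
    intro s hs
    obtain ⟨g, h1, h2, _⟩ := root_aux ha (Finset.mem_filter.mp hs).2 htR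
    rwa [← h2]
  rw [Finset.card_eq_sum_card_fiberwise hmaps, ← smul_eq_mul, ← Finset.sum_const]
  apply Finset.sum_le_sum
  intro g hg
  rw [Nat.mem_divisors] at hg
  have hgpos : 0 < g := Nat.pos_of_dvd_of_pos hg.1 ha
  set b := a / g with hb
  have hab : g * b = a := Nat.mul_div_cancel' hg.1
  have hbpos : 0 < b := Nat.pos_of_ne_zero (by rintro h; rw [h] at hab; omega)
  set h := Nat.gcd g b with hh
  have hhpos : 0 < h := Nat.gcd_pos_of_pos_left _ hgpos
  set L := Nat.lcm g b with hL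
  have hLh : h * L = a := by rw [hh, hL, Nat.gcd_mul_lcm, hab]
  have hLpos : 0 < L := Nat.pos_of_ne_zero (by rintro h; rw [h] at hLh; omega)
  rcases (T.filter (fun s : ℕ => Int.gcd ((s:ℤ) - t) a = g)).eq_empty_or_nonempty with h0 | ⟨s0, hs0⟩
  · rw [h0]; simp
  -- bound for h
  have key : ∀ s ∈ T.filter (fun s : ℕ => Int.gcd ((s:ℤ) - t) a = g),
      (g:ℤ) ∣ (s:ℤ) - t ∧ (b:ℤ) ∣ (s:ℤ) + t - 1 := by
    intro s hs
    rw [Finset.mem_filter] at hs
    obtain ⟨g', h1, h2, h3, h4⟩ := root_aux ha (Finset.mem_filter.mp hs.1).2 htR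
    have : g' = g := by rw [h2, hs.2]
    subst this
    exact ⟨h3, h4⟩
  have hle : h ≤ Nat.sqrt (4*A+1) := by
    obtain ⟨k1, k2⟩ := key s0 hs0
    have hg' : (h:ℤ) ∣ (g:ℤ) := by exact_mod_cast Nat.gcd_dvd_left g b
    have hb' : (h:ℤ) ∣ (b:ℤ) := by exact_mod_cast Nat.gcd_dvd_right g b
    have h1 : (h:ℤ) ∣ 2*(t:ℤ) - 1 := by
      have := dvd_sub (hb'.trans k2) (hg'.trans k1)
      have e : ((s0:ℤ) + t - 1) - ((s0:ℤ) - t) = 2*(t:ℤ) - 1 := by ring
      rwa [e] at this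
    have h2 : (h:ℤ)^2 ∣ (2*(t:ℤ) - 1)^2 := pow_dvd_pow_of_dvd h1 2
    have h3 : (h:ℤ)^2 ∣ (a:ℤ) := by
      have : (h:ℤ)*h ∣ (g:ℤ)*b := mul_dvd_mul hg' hb'
      have e : (a:ℤ) = (g:ℤ)*b := by rw [← hab]; push_cast; ring
      rw [e, sq]; exact this
    have h4 : (h:ℤ)^2 ∣ 4*((t:ℤ)*((t:ℤ)-1) - A) := (h3.trans htR).mul_left 4
    have h5 : (h:ℤ)^2 ∣ ((4*A+1 : ℕ):ℤ) := by
      have := dvd_sub h2 h4
      have e : (2*(t:ℤ) - 1)^2 - 4*((t:ℤ)*((t:ℤ)-1) - A) = ((4*A+1 : ℕ):ℤ) := by push_cast; ring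
      rwa [e] at this
    have h6 : h^2 ∣ 4*A+1 := by exact_mod_cast h5
    rw [Nat.le_sqrt, ← sq]
    exact Nat.le_of_dvd (by omega) h6
  refine le_trans ?_ hle
  calc (T.filter (fun s : ℕ => Int.gcd ((s:ℤ) - t) a = g)).card ≤ (Finset.range h).card := by
        apply Finset.card_le_card_of_injOn (fun s => (s - c)/L)
        · intro s hs
          have hs1 := (Finset.mem_filter.mp hs).1
          have hs2 := Finset.mem_Ico.mp (Finset.mem_filter.mp hs1).1
          simp only [Finset.coe_range, Set.mem_Iio]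
          rw [Nat.div_lt_iff_lt_mul hLpos, hLh]
          omega
        · intro s hs s' hs' hss
          have hs1 := (Finset.mem_filter.mp hs).1
          have hs2 := Finset.mem_Ico.mp (Finset.mem_filter.mp hs1).1
          have hs1' := (Finset.mem_filter.mp hs').1
          have hs2' := Finset.mem_Ico.mp (Finset.mem_filter.mp hs1').1
          obtain ⟨k1, k2⟩ := key s hs
          obtain ⟨k1', k2'⟩ := key s' hs'
          have d1 : (g:ℤ) ∣ (s:ℤ) - s' := by
            have := dvd_sub k1 k1'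
            have e : ((s:ℤ) - t) - ((s':ℤ) - t) = (s:ℤ) - s' := by ring
            rwa [e] at this
          have d2 : (b:ℤ) ∣ (s:ℤ) - s' := by
            have := dvd_sub k2 k2'
            have e : ((s:ℤ) + t - 1) - ((s':ℤ) + t - 1) = (s:ℤ) - s' := by ring
            rwa [e] at this
          have d3 : s ≡ s' [MOD L] := by
            have m1 : g ∣ ((s:ℤ) - s').natAbs := Int.natCast_dvd.mp d1
            have m2 : b ∣ ((s:ℤ) - s').natAbs := Int.natCast_dvd.mp d2
            have m3 : (L:ℤ) ∣ (s:ℤ) - s' := Int.natCast_dvd.mpr (Nat.lcm_dvd m1 m2)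
            apply Nat.ModEq.symm
            rw [Nat.modEq_iff_dvd]; exact m3
          have d4 : (s - c) ≡ (s' - c) [MOD L] := by
            have e1 : s = (s - c) + c := by omega
            have e2 : s' = (s' - c) + c := by omega
            rw [e1, e2] at d3
            exact Nat.ModEq.add_right_cancel' c d3
          have d5 : (s - c) % L = (s' - c) % L := d4
          have d6 : s - c = s' - c := by
            rw [← Nat.div_add_mod (s-c) L, ← Nat.div_add_mod (s'-c) L, d5]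
            simp only at hss
            rw [hss]
          omega
    _ = h := Finset.card_range h

open Classical in
theorem root_count {a A : ℕ} (ha : 0 < a) (S : ℕ) :
    ((Finset.Icc 1 S).filter (fun s => RD a A s)).card ≤
      (S/a + 1) * (a.divisors.card * Nat.sqrt (4*A+1)) := by
  have hsub : (Finset.Icc 1 S).filter (fun s => RD a A s) ⊆
      (Finset.range (S/a+1)).biUnion
        (fun j => (Finset.Ico (1+j*a) (1+j*a+a)).filter (fun s => RD a A s)) := by
    intro s hs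
    rw [Finset.mem_filter, Finset.mem_Icc] at hs
    rw [Finset.mem_biUnion]
    refine ⟨(s-1)/a, ?_, ?_⟩
    · rw [Finset.mem_range]
      have : (s-1)/a ≤ S/a := Nat.div_le_div_right (by omega)
      omega
    · rw [Finset.mem_filter, Finset.mem_Ico]
      refine ⟨?_, hs.2⟩
      have h1 := Nat.div_add_mod (s-1) a
      have h2 := Nat.mod_lt (s-1) ha
      have h3 : a * ((s-1)/a) = (s-1)/a * a := mul_comm _ _
      omega
  calc _ ≤ _ := Finset.card_le_card hsub
    _ ≤ _ := Finset.card_biUnion_le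
    _ ≤ ∑ _j ∈ Finset.range (S/a+1), a.divisors.card * Nat.sqrt (4*A+1) :=
        Finset.sum_le_sum (fun j _ => block_count ha _)
    _ = _ := by rw [Finset.sum_const, Finset.card_range, smul_eq_mul]

end Pool.Agent.X17.SM
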