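import Pool.Agent.X17.SM.Big
import Pool.Agent.X17.SM.Root

/-! Solutions with small entries; the counting argument. -/

namespace Pool.Agent.X17.SM

open Finset

def SmallN (n K : ℕ) : Set (Multiset ℕ) := {Y | Y ∈ Sol n ∧ ∀ y ∈ Y, y < K}

/-- All prime factors are at most `y`. -/
def Sm (y a : ℕ) : Prop := ∀ p : ℕ, p.Prime → p ∣ a → p ≤ y

theorem fz_bound {y M L N : ℕ} {U : ℝ} (hN : 0 < N) (hL : Nat.log 2 N + 1 ≤ L) (hy : L^3 ≤ y)
    (hU : ∀ a : ℕ, a ≤ M → ((Fz a).ncard : ℝ) ≤ U * a) (hU0 : 0 ≤ U) (hM : 0 < M)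
    (hno : ¬ ∃ d : ℕ, d ∣ N ∧ Sm y d ∧ M ≤ d ∧ d ≤ M*y+M) :
    ((Fz N).ncard : ℝ)^3 ≤ U^3 * (M:ℝ)^2 * N := by
  obtain ⟨a, b, hab, ha, hb, h1, h2⟩ := smooth_rough y N hN
  have haM : a < M := by
    by_contra hcon
    push Not at hcon
    obtain ⟨d, hd, hd1, hd2⟩ := window hM a hcon h1
    exact hno ⟨d, hd.trans ⟨b, hab⟩, fun p hp hpd => h1 p hp (hpd.trans hd), hd1, hd2⟩
  have h3 := Fz_rough (L := L) ha b hb (fun p hp hpb => hy.trans (h2 p hp hpb).le)
    (by rw [← hab]; exact hL)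
  rw [← hab] at h3
  have h4 := hU a haM.le
  have h5 : ((Fz N).ncard : ℝ)^3 ≤ ((Fz a).ncard : ℝ)^3 * b := by exact_mod_cast h3
  have h6 : (a:ℝ) ≤ M := by exact_mod_cast haM.le
  have h7 : (N:ℝ) = a * b := by exact_mod_cast hab
  calc ((Fz N).ncard : ℝ)^3 ≤ ((Fz a).ncard : ℝ)^3 * b := h5
    _ ≤ (U * a)^3 * b := by gcongr
    _ = U^3 * (a:ℝ)^2 * (a*b) := by ring
    _ ≤ U^3 * (M:ℝ)^2 * (a*b) := by gcongr
    _ = _ := by rw [h7]

def Lc (m : ℕ) : ℕ := 2*Nat.log 2 (2*m) + 10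

/-- `n` is bad. -/
def IsBad (m K y M n : ℕ) : Prop := ∃ B : ℕ, B ≤ Lc m * K ∧ ∃ A : ℕ, A ≤ Lc m * K^2 ∧
  ∃ d : ℕ, Sm y d ∧ M ≤ d ∧ d ≤ M*y+M ∧ RD d A (n+B)

theorem small_facts {m K n : ℕ} (hm : 3 ≤ m) (hn : m ≤ n) (hn2 : n ≤ 2*m)
    (hKm : Lc m * K ≤ m) {Y : Multiset ℕ} (hY : Y ∈ SmallN n K) :
    Bs Y ≤ Lc m * K ∧ As Y ≤ Lc m * K^2 ∧ Y.prod ≤ 5*m^2 := by
  obtain ⟨hS, hs⟩ := hY
  obtain ⟨z, w, Y2, hYe, -, -, -, hcard⟩ := struct (by omega) hS
  have hc : Multiset.card Y ≤ Lc m := by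
    refine hcard.trans ?_
    unfold Lc
    have := Nat.log_mono_right (b := 2) hn2
    omega
  have hB : Bs Y ≤ Lc m * K :=
    (Bs_le (fun y hy => (hs y hy).le)).trans (Nat.mul_le_mul_right _ hc)
  have hA : As Y ≤ Lc m * K^2 :=
    (As_le' (fun y hy => (hs y hy).le)).trans (Nat.mul_le_mul_right _ hc)
  refine ⟨hB, hA, ?_⟩
  have h2 := hS.2
  have h3 : (n + Bs Y)^2 ≤ (3*m)^2 := Nat.pow_le_pow_left (by omega) 2
  nlinarith

theorem small_bound {m K y M L n : ℕ} {U R : ℝ} (hm : 3 ≤ m) (hn : m ≤ n) (hn2 : n ≤ 2*m)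
    (hKm : Lc m * K ≤ m) (hL : Nat.log 2 (5*m^2) + 1 ≤ L) (hy : L^3 ≤ y)
    (hU : ∀ a : ℕ, a ≤ M → ((Fz a).ncard : ℝ) ≤ U * a) (hU0 : 0 ≤ U) (hM : 0 < M) (hR0 : 0 ≤ R)
    (hR : U^3 * (M:ℝ)^2 * (5*(m:ℝ)^2) ≤ R^3) (hno : ¬ IsBad m K y M n) :
    ((SmallN n K).ncard : ℝ) ≤ ((Lc m * K + 1 : ℕ):ℝ) * ((Lc m * K^2 + 1 : ℕ):ℝ) * R := by
  classical
  have hfin : (SmallN n K).Finite := (Sol_finite (by omega)).subset (fun Y hY => hY.1)
  rw [Set.ncard_eq_toFinset_card _ hfin]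
  have hmaps : ∀ Y ∈ hfin.toFinset, (Bs Y, As Y) ∈
      (Finset.range (Lc m * K + 1)) ×ˢ (Finset.range (Lc m * K^2 + 1)) := by
    intro Y hY
    rw [Set.Finite.mem_toFinset] at hY
    obtain ⟨h1, h2, _⟩ := small_facts hm hn hn2 hKm hY
    rw [Finset.mem_product, Finset.mem_range, Finset.mem_range]
    exact ⟨by omega, by omega⟩
  rw [Finset.card_eq_sum_card_fiberwise hmaps]
  push_cast
  calc (∑ b ∈ (Finset.range (Lc m * K + 1)) ×ˢ (Finset.range (Lc m * K^2 + 1)),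
        ((hfin.toFinset.filter (fun Y => (Bs Y, As Y) = b)).card : ℝ))
      ≤ ∑ _b ∈ (Finset.range (Lc m * K + 1)) ×ˢ (Finset.range (Lc m * K^2 + 1)), R := by
        apply Finset.sum_le_sum
        rintro ⟨B, A⟩ _
        rcases (hfin.toFinset.filter (fun Y => (Bs Y, As Y) = (B, A))).eq_empty_or_nonempty
          with h0 | ⟨Y0, hY0⟩
        · rw [h0]; simpa using hR0
        · rw [Finset.mem_filter, Set.Finite.mem_toFinset] at hY0
          obtain ⟨hY0S, hY0e⟩ := hY0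
          have hB0 : Bs Y0 = B := congrArg Prod.fst hY0e
          have hA0 : As Y0 = A := congrArg Prod.snd hY0e
          obtain ⟨h1, h2, h3⟩ := small_facts hm hn hn2 hKm hY0S
          have hpos := prod_pos_of hY0S.1.1
          have heq := hY0S.1.2
          have hf3 := fz_bound (y := y) (M := M) (L := L) (U := U) hpos
            (by
              have := Nat.log_mono_right (b := 2) h3
              omega) hy hU hU0 hM
            (by
              rintro ⟨d, hd, hd1, hd2, hd3⟩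
              apply hno
              refine ⟨Bs Y0, h1, As Y0, h2, d, hd1, hd2, hd3, ?_⟩
              unfold RD
              have e : (((n + Bs Y0 : ℕ):ℤ)*(((n + Bs Y0 : ℕ):ℤ)-1) - (As Y0 : ℤ)) =
                  2 * (Y0.prod : ℤ) := by
                have : ((2 * Y0.prod + As Y0 + (n + Bs Y0) : ℕ):ℤ) = (((n + Bs Y0)^2 : ℕ):ℤ) := by
                  exact_mod_cast heq
                push_cast at this ⊢
                linarith
              rw [e]
              exact (Int.natCast_dvd_natCast.mpr hd).mul_left 2)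
          have hfR : ((Fz Y0.prod).ncard : ℝ) ≤ R := by
            have h5 : ((Fz Y0.prod).ncard : ℝ)^3 ≤ R^3 := by
              refine hf3.trans (le_trans ?_ hR)
              have : (Y0.prod : ℝ) ≤ 5*(m:ℝ)^2 := by exact_mod_cast h3
              gcongr
            exact le_of_pow_le_pow_left₀ (by norm_num) hR0 h5
          refine le_trans ?_ hfR
          have hsub : (hfin.toFinset.filter (fun Y => (Bs Y, As Y) = (B, A))) ⊆
              (Fz_finite Y0.prod).toFinset := by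
            intro Y hY
            rw [Finset.mem_filter, Set.Finite.mem_toFinset] at hY
            obtain ⟨hYS, hYe⟩ := hY
            have hB1 : Bs Y = B := congrArg Prod.fst hYe
            have hA1 : As Y = A := congrArg Prod.snd hYe
            rw [Set.Finite.mem_toFinset]
            refine ⟨hYS.1.1, ?_⟩
            have heq' := hYS.1.2
            rw [hB1, hA1] at heq'
            rw [hB0, hA0] at heq
            omega
          rw [Set.ncard_eq_toFinset_card _ (Fz_finite _)]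
          exact_mod_cast Finset.card_le_card hsub
    _ = _ := by
        rw [Finset.sum_const, Finset.card_product, Finset.card_range, Finset.card_range,
          nsmul_eq_mul]
        push_cast; ring

open Classical in
theorem bad_card {m K y M τ W : ℕ} (hKm : Lc m * K ≤ m) (hM : 0 < M) (hm : 0 < m)
    (hτ : ∀ d : ℕ, d ≤ M*y+M → d.divisors.card ≤ τ)
    (hW : ((Finset.Icc 1 (M*y+M)).filter (fun d => Sm y d)).card ≤ W) :
    ((Finset.Icc m (2*m)).filter (fun n => IsBad m K y M n)).card ≤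
      (Lc m * K + 1) * ((Lc m * K^2 + 1) * (W * ((3*m/M + 1) *
        (τ * Nat.sqrt (4*(Lc m * K^2)+1))))) := by
  set WS := (Finset.Icc 1 (M*y+M)).filter (fun d => Sm y d ∧ M ≤ d) with hWS
  have hWS' : WS.card ≤ W := by
    refine le_trans (Finset.card_le_card ?_) hW
    intro d hd
    rw [hWS, Finset.mem_filter] at hd
    rw [Finset.mem_filter]
    exact ⟨hd.1, hd.2.1⟩
  have hsub : (Finset.Icc m (2*m)).filter (fun n => IsBad m K y M n) ⊆
      (Finset.range (Lc m * K + 1)).biUnion (fun B => (Finset.range (Lc m * K^2 + 1)).biUnion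
        (fun A => WS.biUnion (fun d => ((Finset.Icc 1 (3*m)).filter (fun s => RD d A s)).image
          (fun s => s - B)))) := by
    intro n hn
    rw [Finset.mem_filter, Finset.mem_Icc] at hn
    obtain ⟨hn1, B, hB, A, hA, d, hd1, hd2, hd3, hd4⟩ := hn
    rw [Finset.mem_biUnion]
    refine ⟨B, Finset.mem_range.mpr (by omega), ?_⟩
    rw [Finset.mem_biUnion]
    refine ⟨A, Finset.mem_range.mpr (by omega), ?_⟩
    rw [Finset.mem_biUnion]
    refine ⟨d, ?_, ?_⟩
    · rw [hWS, Finset.mem_filter, Finset.mem_Icc]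
      exact ⟨⟨by omega, hd3⟩, hd1, hd2⟩
    · rw [Finset.mem_image]
      refine ⟨n + B, ?_, by omega⟩
      rw [Finset.mem_filter, Finset.mem_Icc]
      exact ⟨⟨by omega, by omega⟩, hd4⟩
  refine (Finset.card_le_card hsub).trans ?_
  refine Finset.card_biUnion_le.trans ?_
  rw [show (Lc m * K + 1) * ((Lc m * K^2 + 1) * (W * ((3*m/M + 1) *
        (τ * Nat.sqrt (4*(Lc m * K^2)+1))))) = ∑ _B ∈ Finset.range (Lc m * K + 1),
          ((Lc m * K^2 + 1) * (W * ((3*m/M + 1) *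
        (τ * Nat.sqrt (4*(Lc m * K^2)+1))))) by
      rw [Finset.sum_const, Finset.card_range, smul_eq_mul]]
  apply Finset.sum_le_sum
  intro B _
  refine Finset.card_biUnion_le.trans ?_
  rw [show ((Lc m * K^2 + 1) * (W * ((3*m/M + 1) *
        (τ * Nat.sqrt (4*(Lc m * K^2)+1))))) = ∑ _A ∈ Finset.range (Lc m * K^2 + 1),
          (W * ((3*m/M + 1) * (τ * Nat.sqrt (4*(Lc m * K^2)+1)))) by
      rw [Finset.sum_const, Finset.card_range, smul_eq_mul]]
  apply Finset.sum_le_sum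
  intro A hA
  rw [Finset.mem_range] at hA
  refine Finset.card_biUnion_le.trans ?_
  calc ∑ d ∈ WS, (((Finset.Icc 1 (3*m)).filter (fun s => RD d A s)).image
          (fun s => s - B)).card
      ≤ ∑ _d ∈ WS, ((3*m/M + 1) * (τ * Nat.sqrt (4*(Lc m * K^2)+1))) := by
        apply Finset.sum_le_sum
        intro d hd
        rw [hWS, Finset.mem_filter, Finset.mem_Icc] at hd
        obtain ⟨⟨hd1, hd2⟩, hd3, hdM⟩ := hd
        refine Finset.card_image_le.trans ((root_count (by omega) _).trans ?_)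
        apply Nat.mul_le_mul
        · have := Nat.div_le_div_left (a := 3*m) hdM hM
          omega
        · exact Nat.mul_le_mul (hτ d hd2) (Nat.sqrt_le_sqrt (by omega))
    _ = WS.card * ((3*m/M + 1) * (τ * Nat.sqrt (4*(Lc m * K^2)+1))) := by
        rw [Finset.sum_const, smul_eq_mul]
    _ ≤ _ := Nat.mul_le_mul_right _ hWS'

open Classical in
theorem upper_fin {m K y M L τ W : ℕ} {U R V : ℝ} (hm : 3 ≤ m) (hK : 0 < K) (hM : 0 < M)
    (hKm : Lc m * K ≤ m) (hL : Nat.log 2 (5*m^2) + 1 ≤ L) (hy : L^3 ≤ y)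
    (hτ1 : ∀ q : ℕ, q ≤ (XX m K)^2 → q.divisors.card ≤ τ)
    (hτ2 : ∀ d : ℕ, d ≤ M*y+M → d.divisors.card ≤ τ)
    (hU : ∀ a : ℕ, a ≤ M → ((Fz a).ncard : ℝ) ≤ U * a) (hU0 : 0 ≤ U) (hR0 : 0 ≤ R)
    (hR : U^3 * (M:ℝ)^2 * (5*(m:ℝ)^2) ≤ R^3)
    (hW : ((Finset.Icc 1 (M*y+M)).filter (fun d => Sm y d)).card ≤ W)
    (hV1 : ((Lc m * K + 1 : ℕ):ℝ) * ((Lc m * K^2 + 1 : ℕ):ℝ) * R ≤ V / 2)
    (hV2 : ((PA (XX m K)).ncard : ℝ) * τ < m * V / 4)
    (hB : 2 * ((Lc m * K + 1) * ((Lc m * K^2 + 1) * (W * ((3*m/M + 1) *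
        (τ * Nat.sqrt (4*(Lc m * K^2)+1)))))) ≤ m) :
    ∃ n ∈ Finset.Icc m (2*m), ((Sol n).ncard : ℝ) < V := by
  by_contra hcon
  push Not at hcon
  obtain ⟨hfin, htot⟩ := big_total hm hK hτ1
  have hbad := bad_card hKm hM (by omega) hτ2 hW
  set G := (Finset.Icc m (2*m)).filter (fun n => ¬ IsBad m K y M n) with hG
  have hcard : (m:ℝ)/2 ≤ (G.card : ℝ) := by
    have h1 := Finset.card_filter_add_card_filter_not (s := Finset.Icc m (2*m))
      (fun n => IsBad m K y M n)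
    rw [Nat.card_Icc] at h1
    have h2 : m ≤ 2 * G.card := by
      rw [hG]; omega
    have h3 : (m:ℝ) ≤ 2 * (G.card : ℝ) := by exact_mod_cast h2
    linarith
  have hV0 : 0 < V := by
    have h1 : (0:ℝ) ≤ ((PA (XX m K)).ncard : ℝ) * τ := by positivity
    have h2 : (0:ℝ) < m := by exact_mod_cast (by omega : 0 < m)
    by_contra hc
    push Not at hc
    nlinarith
  have hmain : ∀ n ∈ G, V/2 ≤ ((BigN n K).ncard : ℝ) := by
    intro n hn
    rw [hG, Finset.mem_filter, Finset.mem_Icc] at hn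
    obtain ⟨⟨hn1, hn2⟩, hnb⟩ := hn
    have h1 := hcon n (Finset.mem_Icc.mpr ⟨hn1, hn2⟩)
    have hsub : Sol n ⊆ SmallN n K ∪ BigN n K := by
      intro Y hY
      by_cases h : ∀ y ∈ Y, y < K
      · left; exact ⟨hY, h⟩
      · right
        push Not at h
        exact ⟨hY, h⟩
    have hSf := Sol_finite (n := n) (by omega)
    have hf1 : (SmallN n K).Finite := hSf.subset (fun Y hY => hY.1)
    have hf2 : (BigN n K).Finite := hSf.subset (fun Y hY => hY.1)
    have h2 : (Sol n).ncard ≤ (SmallN n K).ncard + (BigN n K).ncard :=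
      (Set.ncard_le_ncard hsub (hf1.union hf2)).trans (Set.ncard_union_le _ _)
    have h3 := small_bound hm hn1 hn2 hKm hL hy hU hU0 hM hR0 hR hnb
    have h4 : ((Sol n).ncard : ℝ) ≤ ((SmallN n K).ncard : ℝ) + ((BigN n K).ncard : ℝ) := by
      exact_mod_cast h2
    linarith
  have h5 : (G.card : ℝ) * (V/2) ≤ ((PA (XX m K)).ncard : ℝ) * τ := by
    calc (G.card : ℝ) * (V/2) = ∑ _n ∈ G, V/2 := by
          rw [Finset.sum_const, nsmul_eq_mul]
      _ ≤ ∑ n ∈ G, ((BigN n K).ncard : ℝ) := Finset.sum_le_sum hmain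
      _ ≤ ∑ n ∈ Finset.Icc m (2*m), ((BigN n K).ncard : ℝ) :=
          Finset.sum_le_sum_of_subset_of_nonneg (Finset.filter_subset _ _)
            (fun n _ _ => by positivity)
      _ ≤ _ := by exact_mod_cast htot
  have h6 : (m:ℝ)/2 * (V/2) ≤ (G.card : ℝ) * (V/2) :=
    mul_le_mul_of_nonneg_right hcard (by linarith)
  linarith

end Pool.Agent.X17.SM
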