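import Pool.Agent.X17.SM.Asy

/-! For every large `m` some `n` in `[m, 2m]` has few solutions. -/

namespace Pool.Agent.X17.SM

open Finset Filter

theorem upper_good {m : ℕ} {u : ℝ} (h : Good m u) :
    ∃ n ∈ Finset.Icc m (2*m), ((Sol n).ncard : ℝ) < u^1980 := by
  classical
  obtain ⟨hm, hu, hmu, hLc, hy, hexp, hτ, hPA⟩ := h
  have hu1 : (1:ℝ) ≤ u := by linarith [show (1:ℝ) ≤ 10^5 by norm_num]
  have hu0 : (0:ℝ) < u := by linarith
  have hup : ∀ a : ℕ, (0:ℝ) < u^a := fun a => by positivity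
  have hone : ∀ a : ℕ, (1:ℝ) ≤ u^a := fun a => one_le_pow₀ hu1
  have hstep : ∀ (c : ℝ) (a b : ℕ), c ≤ 10^5 → a + 1 ≤ b → c * u^a ≤ u^b := by
    intro c a b hc hab
    calc c * u^a ≤ u * u^a := by
          apply mul_le_mul_of_nonneg_right (hc.trans hu) (hup a).le
      _ = u^(a+1) := by rw [pow_succ]; ring
      _ ≤ u^b := pow_le_pow_right₀ hu1 hab
  set K := ⌈u^30⌉₊ with hK
  set M := ⌈u^600⌉₊ with hM
  set L := Nat.log 2 (5*m^2) + 1 with hL
  set τ := ⌊u⌋₊ with hτd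
  set W := ⌊u^454⌋₊ with hW
  have hK1 : u^30 ≤ (K:ℝ) := Nat.le_ceil _
  have hK2 : (K:ℝ) ≤ 2*u^30 := by
    have := (Nat.ceil_lt_add_one (hup 30).le).le
    linarith [hone 30]
  have hM1 : u^600 ≤ (M:ℝ) := Nat.le_ceil _
  have hM2 : (M:ℝ) ≤ 2*u^600 := by
    have := (Nat.ceil_lt_add_one (hup 600).le).le
    linarith [hone 600]
  have hKpos : 0 < K := by
    have : (0:ℝ) < K := lt_of_lt_of_le (hup 30) hK1
    exact_mod_cast this
  have hMpos : 0 < M := by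
    have : (0:ℝ) < M := lt_of_lt_of_le (hup 600) hM1
    exact_mod_cast this
  have hτu : (τ:ℝ) ≤ u := Nat.floor_le hu0.le
  have hWu : (W:ℝ) ≤ u^454 := Nat.floor_le (hup 454).le
  have hLc0 : (0:ℝ) ≤ (Lc m : ℝ) := by positivity
  have hLcu : (Lc m : ℝ) ≤ u := by linarith
  have hLK : (Lc m : ℝ) * K ≤ 2*u^31 := by
    calc (Lc m : ℝ) * K ≤ u * (2*u^30) := by gcongr
      _ = 2*u^31 := by ring
  have hLK2 : (Lc m : ℝ) * (K:ℝ)^2 ≤ 4*u^61 := by
    calc (Lc m : ℝ) * (K:ℝ)^2 ≤ u * (2*u^30)^2 := by gcongr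
      _ = 4*u^61 := by ring
  have hTT : (TT m : ℝ) ≤ 6*u^2001 := by
    have e1 : TT m ≤ Lc m * (36*m) := by
      unfold TT Lc
      exact Nat.mul_le_mul_left _ (by omega)
    calc (TT m : ℝ) ≤ ((Lc m * (36*m) : ℕ):ℝ) := by exact_mod_cast e1
      _ = 36 * (Lc m : ℝ) * m := by push_cast; ring
      _ ≤ 36 * (u/7) * m := by
          have : (Lc m : ℝ) ≤ u/7 := by linarith
          gcongr
      _ = (36/7) * (u * m) := by ring
      _ ≤ 6 * (u * m) := by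
          apply mul_le_mul_of_nonneg_right (by norm_num) (by positivity)
      _ = 6*u^2001 := by rw [hmu]; ring
  have hXX : (XX m K : ℝ) ≤ u^3973 := by
    have e1 : (XX m K : ℝ) ≤ (TT m : ℝ) + (TT m : ℝ)^2 / K := by
      unfold XX
      push_cast
      have := @Nat.cast_div_le ℝ _ _ _ ((TT m)^2) K
      push_cast at this
      linarith
    have e2 : (TT m : ℝ)^2 / K ≤ 36*u^3972 := by
      rw [div_le_iff₀ (by exact_mod_cast hKpos)]
      calc (TT m : ℝ)^2 ≤ (6*u^2001)^2 := by gcongr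
        _ = 36*u^3972 * u^30 := by ring
        _ ≤ 36*u^3972 * K := by gcongr
    have e3 : 6*u^2001 ≤ u^3972 := hstep 6 2001 3972 (by norm_num) (by norm_num)
    have e4 : 37*u^3972 ≤ u^3973 := hstep 37 3972 3973 (by norm_num) (by norm_num)
    linarith
  have hyu : ((L^3 : ℕ):ℝ) ≤ u := hy
  have hMy : ((M*(L^3)+M : ℕ):ℝ) ≤ 4*u^601 := by
    have e0 : ((M*(L^3)+M : ℕ):ℝ) = (M:ℝ) * (((L^3 : ℕ):ℝ) + 1) := by push_cast; ring
    rw [e0]
    calc (M:ℝ) * (((L^3 : ℕ):ℝ) + 1) ≤ (2*u^600) * (u + u) := by gcongr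
      _ = 4*u^601 := by ring
  apply upper_fin (m := m) (K := K) (y := L^3) (M := M) (L := L) (τ := τ) (W := W)
    (U := u) (R := u^1735) (V := u^1980) hm hKpos hMpos
  · have : ((Lc m * K : ℕ):ℝ) ≤ (m:ℝ) := by
      push_cast
      rw [hmu]
      exact hLK.trans (hstep 2 31 2000 (by norm_num) (by norm_num))
    exact_mod_cast this
  · exact le_rfl
  · exact le_rfl
  · intro q hq
    apply Nat.le_floor
    apply hτ
    calc (q:ℝ) ≤ ((XX m K)^2 : ℕ) := by exact_mod_cast hq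
      _ = (XX m K : ℝ)^2 := by push_cast; ring
      _ ≤ (u^3973)^2 := by gcongr
      _ = u^7946 := by ring
      _ ≤ u^8000 := pow_le_pow_right₀ hu1 (by norm_num)
  · intro d hd
    apply Nat.le_floor
    apply hτ
    calc (d:ℝ) ≤ ((M*(L^3)+M : ℕ):ℝ) := by exact_mod_cast hd
      _ ≤ 4*u^601 := hMy
      _ ≤ u^8000 := hstep 4 601 8000 (by norm_num) (by norm_num)
  · intro a ha
    calc ((Fz a).ncard : ℝ) ≤ ((PA a).ncard : ℝ) := by
          exact_mod_cast Set.ncard_le_ncard (Fz_sub a) (PA_finite a)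
      _ ≤ u * a := by
          apply hPA
          calc (a:ℝ) ≤ M := by exact_mod_cast ha
            _ ≤ 2*u^600 := hM2
            _ ≤ u^4000 := hstep 2 600 4000 (by norm_num) (by norm_num)
  · exact hu0.le
  · exact (hup 1735).le
  · calc u^3 * (M:ℝ)^2 * (5*(m:ℝ)^2) ≤ u^3 * (2*u^600)^2 * (5*(u^2000)^2) := by
          rw [hmu]; gcongr
      _ = 20 * u^5203 := by ring
      _ ≤ u^5205 := hstep 20 5203 5205 (by norm_num) (by norm_num)
      _ = (u^1735)^3 := by ring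
  · -- smooth numbers
    apply Nat.le_floor
    have e1 := smooth_count (L^3) (M*(L^3)+M)
    have e2 : ((M*(L^3)+M : ℕ):ℝ)^(3/4:ℝ) ≤ u^453 := by
      calc ((M*(L^3)+M : ℕ):ℝ)^(3/4:ℝ) ≤ (u^604)^(3/4:ℝ) := by
            apply Real.rpow_le_rpow (by positivity) _ (by norm_num)
            exact hMy.trans (hstep 4 601 604 (by norm_num) (by norm_num))
        _ = u^453 := by
            rw [← Real.rpow_natCast, ← Real.rpow_mul hu0.le, ← Real.rpow_natCast]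
            norm_num
    have e3 : Real.exp (16 * ((L^3 : ℕ):ℝ)^(1/4:ℝ)) ≤ u := hexp
    calc (((Finset.Icc 1 (M*(L^3)+M)).filter (fun d => Sm (L^3) d)).card : ℝ)
        ≤ ((M*(L^3)+M : ℕ):ℝ)^(3/4:ℝ) * Real.exp (16 * ((L^3 : ℕ):ℝ)^(1/4:ℝ)) := by
          refine le_trans (le_of_eq ?_) e1
          congr 2
      _ ≤ u^453 * u := by gcongr
      _ = u^454 := by ring
  · push_cast
    calc ((Lc m : ℝ) * K + 1) * ((Lc m : ℝ) * (K:ℝ)^2 + 1) * u^1735
        ≤ (3*u^31) * (5*u^61) * u^1735 := by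
          have a1 : (Lc m : ℝ) * K + 1 ≤ 3*u^31 := by linarith [hone 31]
          have a2 : (Lc m : ℝ) * (K:ℝ)^2 + 1 ≤ 5*u^61 := by linarith [hone 61]
          gcongr
      _ = (30 * u^1827)/2 := by ring
      _ ≤ u^1980/2 := by
          have := hstep 30 1827 1980 (by norm_num) (by norm_num)
          linarith
  · have e1 := hPA (XX m K) (hXX.trans (pow_le_pow_right₀ hu1 (by norm_num)))
    calc ((PA (XX m K)).ncard : ℝ) * τ ≤ (u * u^3973) * u := by
          have : u * (XX m K : ℝ) ≤ u * u^3973 := by gcongr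
          have e2 : ((PA (XX m K)).ncard : ℝ) ≤ u * u^3973 := e1.trans this
          gcongr
      _ = u^3975 := by ring
      _ < u^3980/4 := by
          have := hstep 8 3975 3980 (by norm_num) (by norm_num)
          linarith [hup 3975]
      _ = m * u^1980 / 4 := by rw [hmu]; ring
  · have e1 : ((3*m/M : ℕ):ℝ) ≤ 3*u^1400 := by
      calc ((3*m/M : ℕ):ℝ) ≤ ((3*m : ℕ):ℝ)/(M:ℝ) := Nat.cast_div_le
        _ ≤ 3*u^1400 := by
          rw [div_le_iff₀ (by exact_mod_cast hMpos)]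
          push_cast
          rw [hmu]
          calc 3*u^2000 = 3*u^1400*u^600 := by ring
            _ ≤ 3*u^1400*M := by gcongr
    have e2 : ((Nat.sqrt (4*(Lc m * K^2)+1) : ℕ):ℝ) ≤ u^31 := by
      have f1 : (Nat.sqrt (4*(Lc m * K^2)+1))^2 ≤ 4*(Lc m * K^2)+1 := by
        rw [sq]; exact Nat.sqrt_le _
      have f2 : ((Nat.sqrt (4*(Lc m * K^2)+1) : ℕ):ℝ)^2 ≤ (u^31)^2 := by
        calc ((Nat.sqrt (4*(Lc m * K^2)+1) : ℕ):ℝ)^2
            ≤ ((4*(Lc m * K^2)+1 : ℕ):ℝ) := by exact_mod_cast f1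
          _ = 4*((Lc m : ℝ) * (K:ℝ)^2) + 1 := by push_cast; ring
          _ ≤ 17 * u^61 := by linarith [hone 61]
          _ ≤ u^62 := hstep 17 61 62 (by norm_num) (by norm_num)
          _ = (u^31)^2 := by ring
      exact le_of_pow_le_pow_left₀ (by norm_num) (hup 31).le f2
    have e3 : ((2 * ((Lc m * K + 1) * ((Lc m * K^2 + 1) * (W * ((3*m/M + 1) *
        (τ * Nat.sqrt (4*(Lc m * K^2)+1)))))) : ℕ):ℝ) ≤ (m:ℝ) := by
      have a1 : (Lc m : ℝ) * K + 1 ≤ 3*u^31 := by linarith [hone 31]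
      have a2 : (Lc m : ℝ) * (K:ℝ)^2 + 1 ≤ 5*u^61 := by linarith [hone 61]
      have a3 : ((3*m/M : ℕ):ℝ) + 1 ≤ 4*u^1400 := by linarith [hone 1400]
      rw [Nat.cast_mul, Nat.cast_mul, Nat.cast_mul, Nat.cast_mul, Nat.cast_mul, Nat.cast_mul]
      have b1 : ((Lc m * K + 1 : ℕ):ℝ) ≤ 3*u^31 := by push_cast; exact a1
      have b2 : ((Lc m * K^2 + 1 : ℕ):ℝ) ≤ 5*u^61 := by push_cast; exact a2
      have b3 : ((3*m/M + 1 : ℕ):ℝ) ≤ 4*u^1400 := by rw [Nat.cast_add, Nat.cast_one]; exact a3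
      calc ((2:ℕ):ℝ) * (((Lc m * K + 1 : ℕ):ℝ) * (((Lc m * K^2 + 1 : ℕ):ℝ) * ((W:ℝ) *
            (((3*m/M + 1 : ℕ):ℝ) * ((τ:ℝ) * ((Nat.sqrt (4*(Lc m * K^2)+1) : ℕ):ℝ))))))
          ≤ 2 * ((3*u^31) * ((5*u^61) * (u^454 * ((4*u^1400) * (u * u^31))))) := by
            rw [Nat.cast_ofNat]
            gcongr
        _ = 120 * u^1978 := by ring
        _ ≤ u^2000 := hstep 120 1978 2000 (by norm_num) (by norm_num)
        _ = m := hmu.symm
    exact_mod_cast e3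

theorem upper : ∀ᶠ m : ℕ in atTop, ∃ n ∈ Finset.Icc m (2*m),
    ((Sol n).ncard : ℝ) < (m:ℝ)^(99/100:ℝ) := by
  filter_upwards [good_ev] with m hm
  obtain ⟨n, hn, h⟩ := upper_good hm
  refine ⟨n, hn, h.trans_eq ?_⟩
  rw [← Real.rpow_natCast, ← Real.rpow_mul (by positivity)]
  norm_num

end Pool.Agent.X17.SM
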